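import Pool.Agent.TH951.MN.Desc

/-! Extension: a point of bounded degree whose differences with many points of small height have
nearly proportional norms has small height. -/

set_option autoImplicit false

open FF Pool.Agent.W603.LV Pool.Agent.W603.PV

namespace TH951.MN

universe u v w

section two

variable {k : Type u} [Field k] [IsAlgClosed k] [CharZero k]
  {F : Type v} [Field F] [Algebra k F] [IsFF k F] {L : Type w} [Field L] [Algebra k L]
  [Algebra F L] [IsScalarTower k F L] [IsFF k L] [FiniteDimensional F L]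
  {M : Type w} [Field M] [Algebra k M] [Algebra F M]
  [IsScalarTower k F M] [FiniteDimensional F M] [IsFF k M]

theorem hgt_small (hN : ∀ x : L, algebraMap F M (Algebra.norm F x) = ∏ e : L →ₐ[F] M, e x)
    (hcard : Fintype.card (L →ₐ[F] M) = Module.finrank F L) {J : Type} [DecidableEq J] (y : J → L)
    (hy : Function.Injective y)
    (B : ℤ) (hB : ∀ j, hgt k (y j) ≤ B) (Q : Finset J) (hQ : Module.finrank F L < Q.card) (x : L)
    (hx : ∀ j, x ≠ y j) (B' : ℤ) (hB' : ∀ i ∈ Q, ∀ j ∈ Q,
      hgt k (Algebra.norm F (x - y i) / Algebra.norm F (x - y j)) ≤ B') :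
    hgt k x ≤ 2 * Q.card * B' + 8 * Q.card ^ 2 * B + B := by
  classical
  obtain ⟨j0, hj0⟩ : Q.Nonempty := Finset.card_pos.1 (by omega)
  have he0 : ∀ (e : L →ₐ[F] M) {y : L}, y ≠ 0 → e y ≠ 0 := fun e y hy => by
    rw [Ne, map_eq_zero_iff e e.toRingHom.injective]; exact hy
  have hx0 : ∀ j, x - y j ≠ 0 := fun j => sub_ne_zero.2 (hx j)
  have hn0 : ∀ j, Algebra.norm F (x - y j) ≠ 0 := fun j => by
    rw [Ne, Algebra.norm_eq_zero_iff]; exact hx0 j
  have hB0 : 0 ≤ B := (hgt_nonneg _).trans (hB j0)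
  have hB0' : 0 ≤ B' := (hgt_nonneg _).trans (hB' j0 hj0 j0 hj0)
  have hD : (0 : ℤ) < Module.finrank F M := by
    exact_mod_cast (Module.finrank_pos : 0 < Module.finrank F M)
  -- finite sets of places
  obtain ⟨T1, hT1⟩ := exists_supp (k := k) ((Finset.univ : Finset (L →ₐ[F] M)) ×ˢ Q)
    (fun p => p.1 (x - y p.2))
  obtain ⟨T2, hT2⟩ := exists_supp (k := k) ((Finset.univ : Finset (L →ₐ[F] M)) ×ˢ (Q ×ˢ Q))
    (fun p => p.1 (y p.2.1 - y p.2.2))
  obtain ⟨T3, hT3⟩ := exists_supp (k := k) Q
    (fun j => algebraMap F M (Algebra.norm F (x - y j0) / Algebra.norm F (x - y j)))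
  set T := T1 ∪ T2 ∪ T3 with hT
  have hTx : ∀ (e : L →ₐ[F] M), ∀ j ∈ Q, ∀ P : Place k M, P.ord (e (x - y j)) ≠ 0 → P ∈ T :=
    fun e j hj P hP => Finset.mem_union_left _ (Finset.mem_union_left _
      (hT1 (e, j) (Finset.mem_product.2 ⟨Finset.mem_univ _, hj⟩) P hP))
  have hTy : ∀ (e : L →ₐ[F] M), ∀ i ∈ Q, ∀ j ∈ Q, ∀ P : Place k M,
      P.ord (e (y i - y j)) ≠ 0 → P ∈ T := fun e i hi j hj P hP =>
    Finset.mem_union_left _ (Finset.mem_union_right _ (hT2 (e, i, j)
      (Finset.mem_product.2 ⟨Finset.mem_univ _, Finset.mem_product.2 ⟨hi, hj⟩⟩) P hP))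
  have hTn : ∀ j ∈ Q, ∀ P : Place k M,
      P.ord (algebraMap F M (Algebra.norm F (x - y j0) / Algebra.norm F (x - y j))) ≠ 0 → P ∈ T :=
    fun j hj P hP => Finset.mem_union_right _ (hT3 j hj P hP)
  set η : Place k M → ℤ := fun W => ∑ j ∈ Q,
    |W.ord (algebraMap F M (Algebra.norm F (x - y j0) / Algebra.norm F (x - y j)))| with hη
  set d : Place k M → (L →ₐ[F] M) → ℤ := fun W e => ∑ p ∈ Q ×ˢ Q, |W.ord (e (y p.1 - y p.2))| with hd
  have hd0 : ∀ W e, 0 ≤ d W e := fun W e => Finset.sum_nonneg fun _ _ => abs_nonneg _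
  have hsplit : ∀ (W : Place k M) j, ∑ e : L →ₐ[F] M, W.ord (e (x - y j)) =
      W.ord (algebraMap F M (Algebra.norm F (x - y j))) := by
    intro W j
    rw [hN, ord_prod Finset.univ _ (fun e _ => he0 e (hx0 j))]
  have hdle : ∀ W e, ∀ i ∈ Q, ∀ j ∈ Q, |W.ord (e (y i - y j))| ≤ d W e := by
    intro W e i hi j hj
    exact Finset.single_le_sum (f := fun p : J × J => |W.ord (e (y p.1 - y p.2))|)
      (fun _ _ => abs_nonneg _) (a := (i, j)) (Finset.mem_product.2 ⟨hi, hj⟩)
  -- the local estimate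
  have hpt : ∀ W : Place k M, ∑ e : L →ₐ[F] M, max (-W.ord (e (x - y j0))⁻¹) 0 ≤
      η W + 2 * ∑ e, d W e := by
    intro W
    obtain ⟨j1, hj1, hj1'⟩ : ∃ j ∈ Q, ∀ e, W.ord (e (x - y j)) ≤ d W e := by
      by_contra hcon
      push Not at hcon
      have hne : Nonempty (L →ₐ[F] M) := ⟨(hcon j0 hj0).choose⟩
      choose! f hf using hcon
      obtain ⟨i, hi, j, hj, hij, hfij⟩ := Finset.exists_ne_map_eq_of_card_lt_of_maps_to
        (t := (Finset.univ : Finset (L →ₐ[F] M))) (s := Q) (f := f)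
        (by rw [Finset.card_univ, hcard]; exact hQ) (fun _ _ => Finset.mem_univ _)
      have h1 := hf i hi
      have h2 := hf j hj
      rw [hfij] at h1
      have hyij : y i - y j ≠ 0 := sub_ne_zero.2 fun h => hij (hy h)
      have h3 := W.ord_add (f := f j (x - y j)) (g := -(f j (x - y i))) (he0 _ (hx0 j))
        (neg_ne_zero.2 (he0 _ (hx0 i))) (by
          rw [← map_neg, ← map_add]
          apply he0
          have : x - y j + -(x - y i) = y i - y j := by ring
          rw [this]; exact hyij)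
      rw [← map_neg, ← map_add] at h3
      have h4 : x - y j + -(x - y i) = y i - y j := by ring
      rw [h4, map_neg, W.ord_neg] at h3
      have h5 := hdle W (f j) i hi j hj
      have h6 := le_abs_self (W.ord (f j (y i - y j)))
      have h7 := h3
      rw [min_le_iff] at h7
      omega
    have h1 : ∀ e : L →ₐ[F] M, W.ord (e (x - y j1)) + max (-W.ord (e (x - y j0))) 0 ≤
        2 * d W e := by
      intro e
      have h2 := hj1' e
      have h3 := hd0 W e
      by_cases hjj : j0 = j1
      · rw [hjj]; omega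
      · have hyij : y j1 - y j0 ≠ 0 := sub_ne_zero.2 fun h => hjj (hy h).symm
        have h4 := W.ord_add (f := e (x - y j1)) (g := e (y j1 - y j0)) (he0 _ (hx0 j1))
          (he0 _ hyij) (by
            rw [← map_add, sub_add_sub_cancel]; exact he0 _ (hx0 j0))
        rw [← map_add, sub_add_sub_cancel] at h4
        have h5 := hdle W e j1 hj1 j0 hj0
        have h6 := neg_abs_le (W.ord (e (y j1 - y j0)))
        rcases min_le_iff.1 h4 with h7 | h7
        · omega
        · omega
    have h2 := Finset.sum_le_sum fun (e : L →ₐ[F] M) (_ : e ∈ Finset.univ) => h1 e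
    rw [Finset.sum_add_distrib, hsplit, ← Finset.mul_sum] at h2
    have h3 : W.ord (algebraMap F M (Algebra.norm F (x - y j0) / Algebra.norm F (x - y j1))) =
        W.ord (algebraMap F M (Algebra.norm F (x - y j0))) -
        W.ord (algebraMap F M (Algebra.norm F (x - y j1))) := by
      rw [map_div₀, W.ord_div (by simpa using hn0 j0) (by simpa using hn0 j1)]
    have h4 : |W.ord (algebraMap F M (Algebra.norm F (x - y j0) / Algebra.norm F (x - y j1)))| ≤
        η W := Finset.single_le_sum (f := fun j : J =>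
          |W.ord (algebraMap F M (Algebra.norm F (x - y j0) / Algebra.norm F (x - y j)))|)
          (fun _ _ => abs_nonneg _) hj1
    have h5 := le_abs_self
      (W.ord (algebraMap F M (Algebra.norm F (x - y j0) / Algebra.norm F (x - y j1))))
    have h6 : ∑ e : L →ₐ[F] M, max (-W.ord (e (x - y j0))⁻¹) 0 =
        ∑ e : L →ₐ[F] M, W.ord (e (x - y j0)) + ∑ e : L →ₐ[F] M, max (-W.ord (e (x - y j0))) 0 := by
      rw [← Finset.sum_add_distrib]
      refine Finset.sum_congr rfl fun e _ => ?_
      rw [W.ord_inv]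
      omega
    rw [h6, hsplit]
    linarith
  -- sum over the places
  have hsum := Finset.sum_le_sum fun (W : Place k M) (_ : W ∈ T) => hpt W
  rw [Finset.sum_comm, Finset.sum_add_distrib, ← Finset.mul_sum] at hsum
  have h1 : ∑ e : L →ₐ[F] M, ∑ W ∈ T, max (-W.ord (e (x - y j0))⁻¹) 0 =
      Module.finrank F M * hgt k (x - y j0) := by
    rw [← sum_hgt_emb (k := k) (M := M) hcard]
    refine Finset.sum_congr rfl fun e _ => ?_
    rw [← hgt_inv (k := k) (e (x - y j0)), hgt_finset _ T]
    intro P hP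
    exact hTx e j0 hj0 P fun h => hP (by rw [P.ord_inv, h, neg_zero])
  have h2 : ∑ W ∈ T, η W ≤ Module.finrank F M * (2 * Q.card * B') := by
    simp only [hη]
    rw [Finset.sum_comm]
    refine (Finset.sum_le_card_nsmul _ _ (Module.finrank F M * (2 * B')) ?_).trans (le_of_eq ?_)
    · intro j hj
      rw [sum_abs_ord _ T (hTn j hj), hgt_algebraMap (F := F) (L := M)]
      have h3 := mul_le_mul_of_nonneg_left (hB' j0 hj0 j hj) hD.le
      linarith
    · rw [nsmul_eq_mul]; ring
  have h3 : ∑ W ∈ T, ∑ e, d W e ≤ Module.finrank F M * (4 * Q.card ^ 2 * B) := by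
    rw [Finset.sum_comm]
    simp only [hd]
    have h4 : ∀ e : L →ₐ[F] M, ∑ W ∈ T, ∑ p ∈ Q ×ˢ Q, |W.ord (e (y p.1 - y p.2))| =
        ∑ p ∈ Q ×ˢ Q, 2 * hgt k (e (y p.1 - y p.2)) := by
      intro e
      rw [Finset.sum_comm]
      refine Finset.sum_congr rfl fun p hp => ?_
      rw [Finset.mem_product] at hp
      exact sum_abs_ord _ T (hTy e _ hp.1 _ hp.2)
    rw [Finset.sum_congr rfl fun e _ => h4 e, Finset.sum_comm]
    refine (Finset.sum_le_card_nsmul _ _ (Module.finrank F M * (4 * B)) ?_).trans (le_of_eq ?_)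
    · intro p _
      rw [← Finset.mul_sum, sum_hgt_emb hcard]
      have h5 := hgt_sub (k := k) (y p.1) (y p.2)
      have h6 := hB p.1
      have h7 := hB p.2
      have h8 : hgt k (y p.1 - y p.2) ≤ 2 * B := by linarith
      have h9 := mul_le_mul_of_nonneg_left h8 hD.le
      linarith
    · rw [nsmul_eq_mul, Finset.card_product]; push_cast; ring
  rw [h1] at hsum
  have h4 : (Module.finrank F M : ℤ) * hgt k (x - y j0) ≤
      Module.finrank F M * (2 * Q.card * B' + 8 * Q.card ^ 2 * B) := by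
    linarith
  have h5 := le_of_mul_le_mul_left h4 hD
  have h6 := hgt_add (k := k) (x - y j0) (y j0)
  rw [sub_add_cancel] at h6
  have h7 := hB j0
  linarith

/-- The extension step. -/
theorem extend (hN : ∀ x : L, algebraMap F M (Algebra.norm F x) = ∏ e : L →ₐ[F] M, e x)
    (hcard : Fintype.card (L →ₐ[F] M) = Module.finrank F L) [IsGalois F M] {r : ℕ}
    (hr : Module.finrank F L ≤ r) {K : ℕ} (hK : 2 ^ r * r < K) (y : Fin K → L)
    (hy : Function.Injective y) (B : ℤ) (hB : ∀ j, hgt k (y j) ≤ B)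
    (S : Finset (Place k F)) (x : L) (hx : ∀ j, x ≠ y j)
    (hS : ∀ P ∉ S, ∀ i j, P.ord (Algebra.norm F (x - y i)) = P.ord (Algebra.norm F (x - y j))) :
    hgt k x ≤ (4 * K * pc (2 ^ r + 1) + (4 * K * (pc (2 ^ r + 1) * (2 ^ r * 2) + 1) *
      (2 * ((2 ^ r).factorial * 2 ^ r : ℕ)) + 8 * K ^ 2 + 1)) *
      (max (canDeg k F + S.card) 0 + B) := by
  classical
  have hK0 : 0 < K := by omega
  have hB0 : 0 ≤ B := (hgt_nonneg _).trans (hB ⟨0, hK0⟩)
  obtain ⟨ρ, C, a, hρ, ha, hrel⟩ := relations (k := k) hN hcard hr y B hB0 hB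
  have hn0 : ∀ j, Algebra.norm F (x - y j) ≠ 0 := fun j => by
    rw [Ne, Algebra.norm_eq_zero_iff]; exact sub_ne_zero.2 (hx j)
  set c : ℤ := 2 * ((2 ^ r).factorial * 2 ^ r : ℕ) with hc
  have hc0 : 0 ≤ c := by positivity
  set X : ℤ := max (canDeg k F + S.card) 0 with hX
  have hX0 : 0 ≤ X := le_max_right _ _
  set B1 : ℤ := pc (2 ^ r + 1) * (X + 2 ^ r * (2 * (c * B))) + c * B with hB1
  -- the partner of `j`
  have hpart : ∀ j, ∃ b : Fin ρ,
      hgt k (Algebra.norm F (x - y j) / Algebra.norm F (x - y (C b))) ≤ B1 := by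
    intro j
    -- enlarge `S`
    have hsupp : ∀ b : Fin ρ, ∃ T : Finset (Place k F), (∀ P : Place k F, P.ord (a b j) ≠ 0 → P ∈ T) ∧
        (T.card : ℤ) ≤ 2 * (c * B) := by
      intro b
      obtain ⟨T, hT⟩ := exists_supp (k := k) (Finset.univ : Finset (Fin 1)) ![a b j]
      have hT' : ∀ P : Place k F, P.ord (a b j) ≠ 0 → P ∈ T := fun P => hT 0 (Finset.mem_univ _) P
      refine ⟨T.filter fun P => P.ord (a b j) ≠ 0, fun P hP =>
        Finset.mem_filter.2 ⟨hT' P hP, hP⟩, ?_⟩
      refine (card_supp_le (k := k) (a b j) _ fun P hP => (Finset.mem_filter.1 hP).2).trans ?_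
      have := ha b j
      linarith
    choose T hT hTc using hsupp
    set S' : Finset (Place k F) := S ∪ Finset.univ.biUnion T with hS'
    have hS'c : (S'.card : ℤ) ≤ S.card + 2 ^ r * (2 * (c * B)) := by
      have h1 : S'.card ≤ S.card + ∑ b, (T b).card :=
        (Finset.card_union_le _ _).trans (Nat.add_le_add_left Finset.card_biUnion_le _)
      have h2 : ((∑ b, (T b).card : ℕ) : ℤ) ≤ 2 ^ r * (2 * (c * B)) := by
        push_cast
        refine (Finset.sum_le_card_nsmul _ _ _ fun b _ => hTc b).trans ?_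
        rw [Finset.card_univ, Fintype.card_fin, nsmul_eq_mul]
        have h3 : (ρ : ℤ) ≤ 2 ^ r := by exact_mod_cast hρ
        exact mul_le_mul_of_nonneg_right h3 (by positivity)
      have h3 : (S'.card : ℤ) ≤ S.card + ((∑ b, (T b).card : ℕ) : ℤ) := by exact_mod_cast h1
      linarith
    -- the relation
    let J' := Option {b : Fin ρ // a b j ≠ 0}
    let g : J' → F := fun o => o.elim (Algebra.norm F (x - y j))
      (fun b => -(a b j * Algebra.norm F (x - y (C b))))
    have hg0 : ∀ o, g o ≠ 0 := by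
      rintro (_ | b)
      · exact hn0 j
      · exact neg_ne_zero.2 (mul_ne_zero b.2 (hn0 _))
    have hgsum : ∑ o, g o = 0 := by
      rw [Fintype.sum_option]
      change Algebra.norm F (x - y j) + ∑ b : {b : Fin ρ // a b j ≠ 0},
        -(a b j * Algebra.norm F (x - y (C b))) = 0
      rw [hrel x j, Finset.sum_neg_distrib, ← sub_eq_add_neg, sub_eq_zero]
      rw [← Finset.sum_subtype (Finset.univ.filter fun b : Fin ρ => a b j ≠ 0) (by simp)
        (fun b => a b j * Algebra.norm F (x - y (C b)))]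
      symm
      refine Finset.sum_filter_of_ne fun b _ hb => ?_
      exact left_ne_zero_of_mul hb
    have hgS : ∀ P ∉ S', ∀ o o', P.ord (g o) = P.ord (g o') := by
      intro P hP
      have hPS : P ∉ S := fun h => hP (Finset.mem_union_left _ h)
      have hPT : ∀ b, P.ord (a b j) = 0 := by
        intro b
        by_contra h
        exact hP (Finset.mem_union_right _ (Finset.mem_biUnion.2 ⟨b, Finset.mem_univ _, hT b P h⟩))
      have h1 : ∀ o, P.ord (g o) = P.ord (Algebra.norm F (x - y j)) := by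
        rintro (_ | b)
        · rfl
        · change P.ord (-(a b j * Algebra.norm F (x - y (C b)))) = _
          rw [P.ord_neg, P.ord_mul b.2 (hn0 _), hPT, zero_add]
          exact hS P hPS _ _
      intro o o'
      rw [h1, h1]
    obtain ⟨o, ho, hh⟩ := partner (k := k) S' g hg0 hgsum hgS none
    rcases o with _ | b
    · exact absurd rfl ho
    refine ⟨b, ?_⟩
    change hgt k (Algebra.norm F (x - y j) / (-(a b j * Algebra.norm F (x - y (C b))))) ≤ _ at hh
    have h1 : Algebra.norm F (x - y j) / Algebra.norm F (x - y (C b)) =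
        -(Algebra.norm F (x - y j) / (-(a b j * Algebra.norm F (x - y (C b)))) * a b j) := by
      have h2 := hn0 (C b)
      have h3 := b.2
      field_simp
    rw [h1, hgt_neg]
    refine (hgt_mul' _ _).trans ?_
    rw [hB1]
    refine add_le_add (hh.trans ?_) (ha b j)
    have h2 : Fintype.card J' ≤ 2 ^ r + 1 := by
      change Fintype.card (Option {b : Fin ρ // a b j ≠ 0}) ≤ _
      rw [Fintype.card_option]
      have := Fintype.card_subtype_le (fun b : Fin ρ => a b j ≠ 0)
      rw [Fintype.card_fin] at this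
      omega
    have h3 : max (canDeg k F + S'.card) 0 ≤ X + 2 ^ r * (2 * (c * B)) := by
      apply max_le
      · have := le_max_left (canDeg k F + S.card) 0
        linarith
      · positivity
    exact mul_le_mul (pc_mono h2) h3 (le_max_right _ _) (pc_nonneg _)
  -- a large class
  choose f hf using hpart
  obtain ⟨b, -, hb⟩ := Finset.exists_lt_card_fiber_of_mul_lt_card_of_maps_to
    (s := (Finset.univ : Finset (Fin K))) (t := (Finset.univ : Finset (Fin ρ))) (f := f)
    (fun _ _ => Finset.mem_univ _) (n := r) (by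
      rw [Finset.card_univ, Finset.card_univ, Fintype.card_fin, Fintype.card_fin]
      exact (Nat.mul_le_mul_right r hρ).trans_lt hK)
  set Q := Finset.univ.filter fun j => f j = b with hQ
  have hQr : Module.finrank F L < Q.card := lt_of_le_of_lt hr hb
  have hQK : Q.card ≤ K := (Finset.card_filter_le _ _).trans (by simp)
  have hQB : ∀ i ∈ Q, ∀ j ∈ Q,
      hgt k (Algebra.norm F (x - y i) / Algebra.norm F (x - y j)) ≤ 2 * B1 := by
    intro i hi j hj
    have h1 := hf i
    have h2 := hf j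
    rw [(Finset.mem_filter.1 hi).2] at h1
    rw [(Finset.mem_filter.1 hj).2] at h2
    have h3 : Algebra.norm F (x - y i) / Algebra.norm F (x - y j) =
        (Algebra.norm F (x - y i) / Algebra.norm F (x - y (C b))) /
        (Algebra.norm F (x - y j) / Algebra.norm F (x - y (C b))) := by
      have h4 := hn0 (C b)
      have h5 := hn0 j
      field_simp
    rw [h3]
    refine (hgt_div' _ _).trans ?_
    linarith
  have hfin := hgt_small (k := k) hN hcard y hy B hB Q hQr x hx (2 * B1) hQB
  have hpc := pc_nonneg (2 ^ r + 1)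
  have hB10 : 0 ≤ B1 := by positivity
  have hQK' : (Q.card : ℤ) ≤ K := by exact_mod_cast hQK
  refine hfin.trans ?_
  have h1 : 2 * (Q.card : ℤ) * (2 * B1) ≤ 2 * K * (2 * B1) :=
    mul_le_mul_of_nonneg_right (by linarith) (by positivity)
  have h2 : 8 * (Q.card : ℤ) ^ 2 * B ≤ 8 * K ^ 2 * B :=
    mul_le_mul_of_nonneg_right (by nlinarith) hB0
  set p := pc (2 ^ r + 1) with hp
  have h3 : 2 * (K : ℤ) * (2 * B1) = 4 * K * p * X + 4 * K * (p * (2 ^ r * 2) + 1) * c * B := by
    rw [hB1]; ring
  have h4 : (0 : ℤ) ≤ 4 * K * (p * (2 ^ r * 2) + 1) * c := by positivity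
  have h5 : (0 : ℤ) ≤ 4 * K * p := by positivity
  have h6 : (0 : ℤ) ≤ 8 * K ^ 2 := by positivity
  nlinarith [mul_nonneg h4 hX0, mul_nonneg h5 hB0, mul_nonneg h6 hX0]

end two

end TH951.MN
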