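import Pool.Agent.TH951.MN.PropA
import Pool.Agent.TH951.MN.PropB

/-! Heights of points of bounded degree on the moduli space of pointed rational curves. -/

set_option autoImplicit false

open FF Pool.Agent.W603.LV Pool.Agent.W603.PV

namespace TH951.MN

universe u v w

theorem main_step (r : ℕ) : ∃ N C : ℕ, ∀ (k : Type u) [Field k] [IsAlgClosed k] [CharZero k]
    (F : Type v) [Field F] [Algebra k F] [IsFF k F] (L : Type w) [Field L] [Algebra k L]
    [Algebra F L] [IsScalarTower k F L] [FiniteDimensional F L] [IsFF k L]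
    (_ : Module.finrank F L ≤ r) (S : Finset (Place k F)) (W : Set L)
    (_ : ∀ P : Place k L, under F P ∉ S → ∀ w ∈ W, ∀ w' ∈ W, w ≠ w' → P.ord (w - w') = 0)
    (x : ℕ → L) (_ : ∀ i j, i < N → j < N → i ≠ j → x i ≠ x j) (_ : ∀ i, i < N → x i ∈ W),
    ∃ n, n < N ∧ ∃ c d : L, d ≠ 0 ∧
      (∀ w ∈ W, w ≠ x n → hgt k (((w - x n)⁻¹ - c) / d) ≤ C * max (canDeg k F + S.card) 0) ∧
      hgt k ((0 - c) / d) ≤ C * max (canDeg k F + S.card) 0 := by
  classical
  set K := 2 ^ r * r + 3 with hK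
  obtain ⟨N, C1, hcl⟩ := cluster.{u, v, w} r K
  set C2 : ℤ := 4 * K * pc (2 ^ r + 1) + (4 * K * (pc (2 ^ r + 1) * (2 ^ r * 2) + 1) *
      (2 * ((2 ^ r).factorial * 2 ^ r : ℕ)) + 8 * K ^ 2 + 1) with hC2
  have hpc := pc_nonneg (2 ^ r + 1)
  have hC21 : 1 ≤ C2 := by
    have h1 : 0 ≤ 4 * (K : ℤ) * pc (2 ^ r + 1) := by positivity
    have h2 : 0 ≤ 4 * (K : ℤ) * (pc (2 ^ r + 1) * (2 ^ r * 2) + 1) *
      (2 * ((2 ^ r).factorial * 2 ^ r : ℕ)) := by positivity
    have h3 : 0 ≤ 8 * (K : ℤ) ^ 2 := by positivity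
    rw [hC2]; linarith
  refine ⟨N, (C2 * (1 + C1)).toNat, ?_⟩
  intro k _ _ _ F _ _ _ L _ _ _ _ _ _ hr S W hW x hx hxW
  have hCn : (((C2 * (1 + C1)).toNat : ℕ) : ℤ) = C2 * (1 + C1) :=
    Int.toNat_of_nonneg (by positivity)
  rw [hCn]
  set X : ℤ := max (canDeg k F + S.card) 0 with hX
  have hX0 : 0 ≤ X := le_max_right _ _
  have hF : CharZero F := charZero_of_injective_algebraMap (algebraMap k F).injective
  obtain ⟨M, _, _, hMfin, hgal, hnorm, hcard⟩ := exists_gal F L
  letI : Algebra k M := ((algebraMap F M).comp (algebraMap k F)).toAlgebra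
  have hkM : IsScalarTower k F M := IsScalarTower.of_algebraMap_eq fun _ => rfl
  have hFFM : IsFF k M := isFF_of_finite (F := F)
  obtain ⟨e, he, heN, hcr⟩ := hcl k F L hr S x hx (fun P hP i j hi hj hij =>
    hW P hP _ (hxW i hi) _ (hxW j hj) (hx i j hi hj hij))
  have hne : ∀ i j, i ≤ K → j ≤ K → i ≠ j → x (e i) ≠ x (e j) := by
    intro i j hi hj hij
    rcases Nat.lt_or_gt_of_ne hij with h | h
    · exact hx _ _ (heN i hi) (heN j hj) (he i j h hj).ne
    · exact hx _ _ (heN i hi) (heN j hj) (he j i h hi).ne'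
  set o := x (e 0) with ho
  set z : ℕ → L := fun i => (x (e (i + 1)) - o)⁻¹ with hz
  have hxo : ∀ i, i < K → x (e (i + 1)) - o ≠ 0 := fun i hi =>
    sub_ne_zero.2 (hne _ _ (by omega) (by omega) (by omega))
  have hzne : ∀ i j, i < K → j < K → i ≠ j → z i - z j ≠ 0 := by
    intro i j hi hj hij h
    rw [sub_eq_zero] at h
    have h1 := inv_injective h
    exact hne (i + 1) (j + 1) (by omega) (by omega) (by omega) (sub_left_injective h1)
  have h10 := hzne 1 0 (by omega) (by omega) (by omega)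
  set y : Fin K → L := fun i => (z i - z 0) / (z 1 - z 0) with hy
  have hyinj : Function.Injective y := by
    intro i j hij
    by_contra hne'
    have h1 : (i : ℕ) ≠ j := fun h => hne' (Fin.ext h)
    apply hzne i j i.2 j.2 h1
    simp only [hy] at hij
    rw [div_left_inj' h10] at hij
    linear_combination hij
  have hyB : ∀ i, hgt k (y i) ≤ C1 * X := by
    intro i
    by_cases hi : (i : ℕ) = 0
    · have : y i = 0 := by simp only [hy]; rw [hi, sub_self, zero_div]
      rw [this, hgt_zero]; positivity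
    · exact hcr i 0 1 0 i.2 (by omega) (by omega) (by omega) hi (by omega)
  -- units
  have hzu : ∀ P : Place k L, under F P ∉ S → P.ord (z 1 - z 0) = 0 := by
    intro P hP
    have h1 : z 1 - z 0 = (x (e 1) - x (e 2)) * z 1 * z 0 := by
      have h2 := hxo 0 (by omega)
      have h3 := hxo 1 (by omega)
      simp only [hz]
      simp only [zero_add, Nat.reduceAdd] at h2 h3 ⊢
      field_simp
      ring
    have h2 : ∀ i, i < K → P.ord (z i) = 0 := by
      intro i hi
      simp only [hz]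
      rw [P.ord_inv, hW P hP _ (hxW _ (heN _ (by omega))) _ (hxW _ (heN _ (by omega)))
        (hne _ _ (by omega) (by omega) (by omega)), neg_zero]
    have h3 : ∀ i, i < K → z i ≠ 0 := fun i hi => inv_ne_zero (hxo i hi)
    have h4 : x (e 1) - x (e 2) ≠ 0 := sub_ne_zero.2 (hne _ _ (by omega) (by omega) (by omega))
    rw [h1, P.ord_mul (mul_ne_zero h4 (h3 1 (by omega))) (h3 0 (by omega)),
      P.ord_mul h4 (h3 1 (by omega)), h2 1 (by omega), h2 0 (by omega),
      hW P hP _ (hxW _ (heN _ (by omega))) _ (hxW _ (heN _ (by omega)))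
        (hne _ _ (by omega) (by omega) (by omega))]
    rfl
  -- the general point
  have key : ∀ q : L, (∀ i, i < K → q ≠ z i → ∀ P : Place k L, under F P ∉ S →
      P.ord (q - z i) = 0) → hgt k ((q - z 0) / (z 1 - z 0)) ≤ C2 * (1 + C1) * X := by
    intro q hq
    by_cases hqz : ∃ i : Fin K, q = z i
    · obtain ⟨i, hi⟩ := hqz
      have h1 := hyB i
      rw [hi]
      change hgt k (y i) ≤ _
      refine h1.trans ?_
      have h2 : (0 : ℤ) ≤ C1 := by positivity
      have h3 := mul_nonneg h2 hX0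
      nlinarith
    · push Not at hqz
      have hxy : ∀ j, (q - z 0) / (z 1 - z 0) - y j = (q - z j) / (z 1 - z 0) := by
        intro j
        simp only [hy]
        rw [← sub_div]
        congr 1
        ring
      have hqz0 : ∀ j : Fin K, q - z j ≠ 0 := fun j => sub_ne_zero.2 (hqz j)
      have h1 := extend (k := k) (M := M) hnorm hcard hr (K := K) (by omega) y hyinj (C1 * X) hyB S
        ((q - z 0) / (z 1 - z 0)) (by
          intro j h
          have h2 := hxy j
          rw [h, sub_self] at h2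
          exact div_ne_zero (hqz0 j) h10 h2.symm) (by
          intro V hV
          have h2 : ∀ j, V.ord (Algebra.norm F ((q - z 0) / (z 1 - z 0) - y j)) = 0 := by
            intro j
            rw [hxy]
            refine ord_norm_eq_zero (M := M) hnorm V (div_ne_zero (hqz0 j) h10) ?_
            intro P hP
            have hPS : under F P ∉ S := by rw [hP]; exact hV
            rw [P.ord_div (hqz0 j) h10, hq j j.2 (hqz j) P hPS, hzu P hPS, sub_zero]
          intro i j
          rw [h2, h2])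
      refine h1.trans (le_of_eq ?_)
      rw [hC2]
      ring
  refine ⟨e 0, heN 0 (Nat.zero_le _), z 0, z 1 - z 0, h10, ?_, ?_⟩
  · intro w hw hwo
    refine key _ ?_
    intro i hi hwi P hP
    have hwo' : w - o ≠ 0 := sub_ne_zero.2 hwo
    have hwx : w ≠ x (e (i + 1)) := by
      intro h
      apply hwi
      simp only [hz]
      rw [← h]
    have h1 : (w - o)⁻¹ - z i = (x (e (i + 1)) - w) * (w - o)⁻¹ * z i := by
      have h2 := hxo i hi
      simp only [hz]
      field_simp
      ring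
    change P.ord ((w - o)⁻¹ - z i) = 0
    have hzi : z i ≠ 0 := inv_ne_zero (hxo i hi)
    rw [h1, P.ord_mul (mul_ne_zero (sub_ne_zero.2 hwx.symm) (inv_ne_zero hwo')) hzi,
      P.ord_mul (sub_ne_zero.2 hwx.symm) (inv_ne_zero hwo'), P.ord_inv,
      hW P hP _ (hxW _ (heN _ (by omega))) _ hw hwx.symm,
      hW P hP _ hw _ (hxW _ (heN _ (by omega))) hwo]
    simp only [hz]
    rw [P.ord_inv, hW P hP _ (hxW _ (heN _ (by omega))) _ (hxW _ (heN _ (by omega)))
        (hne _ _ (by omega) (by omega) (by omega))]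
    rfl
  · refine key _ ?_
    intro i hi _ P hP
    rw [zero_sub, P.ord_neg]
    simp only [hz]
    rw [P.ord_inv, hW P hP _ (hxW _ (heN _ (by omega))) _ (hxW _ (heN _ (by omega)))
        (hne _ _ (by omega) (by omega) (by omega)), neg_zero]

/-- Heights of points of bounded degree on the moduli space of pointed rational curves over a
function field. -/
theorem main (r : ℕ) : ∃ N C : ℕ, ∀ (k : Type u) [Field k] [IsAlgClosed k] [CharZero k]
    (F : Type v) [Field F] [Algebra k F] [IsFF k F] (L : Type w) [Field L] [Algebra k L]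
    [Algebra F L] [IsScalarTower k F L] [FiniteDimensional F L] [IsFF k L]
    (_ : Module.finrank F L ≤ r) (S : Finset (Place k F)) (ι : Type) [Fintype ι]
    (_ : N ≤ Fintype.card ι) (x : ι → L) (_ : Function.Injective x) (_ : ∀ i, x i ≠ 0)
    (_ : ∀ i, x i ≠ 1) (_ : ∀ P : Place k L, under F P ∉ S → (∀ i, P.ord (x i) = 0) ∧
      (∀ i, P.ord (x i - 1) = 0) ∧ ∀ i j, i ≠ j → P.ord (x i - x j) = 0),
    ∀ i, hgt k (x i) ≤ C * max (canDeg k F + S.card) 0 := by
  classical
  obtain ⟨N, C, hmain⟩ := main_step.{u, v, w} r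
  refine ⟨N, 8 * C, ?_⟩
  intro k _ _ _ F _ _ _ L _ _ _ _ _ _ hr S ι _ hN x hxinj hx0 hx1 hxS i
  set X : ℤ := max (canDeg k F + S.card) 0 with hX
  have hX0 : 0 ≤ X := le_max_right _ _
  let f : ℕ → ι := fun n => if h : n < Fintype.card ι then (Fintype.equivFin ι).symm ⟨n, h⟩ else i
  set W : Set L := insert 0 (insert 1 (Set.range x)) with hW
  have hWord : ∀ P : Place k L, under F P ∉ S → ∀ w ∈ W, ∀ w' ∈ W, w ≠ w' →
      P.ord (w - w') = 0 := by
    intro P hP w hw w' hw' hww
    obtain ⟨h1, h2, h3⟩ := hxS P hP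
    rcases hw with rfl | rfl | ⟨a, rfl⟩ <;> rcases hw' with rfl | rfl | ⟨b, rfl⟩
    · exact absurd rfl hww
    · rw [zero_sub, P.ord_neg, P.ord_one]
    · rw [zero_sub, P.ord_neg, h1]
    · rw [sub_zero, P.ord_one]
    · exact absurd rfl hww
    · rw [← neg_sub, P.ord_neg, h2]
    · rw [sub_zero, h1]
    · exact h2 a
    · exact h3 a b fun h => hww (by rw [h])
  obtain ⟨n, hn, c, d, hd, hB, hB0⟩ := hmain k F L hr S W hWord (fun n => x (f n)) (by
      intro a b ha hb hab h
      have h1 := hxinj h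
      simp only [f, ha.trans_le hN, hb.trans_le hN, dif_pos] at h1
      have h2 := (Fintype.equivFin ι).symm.injective h1
      exact hab (congrArg Fin.val h2)) (fun n _ => Or.inr (Or.inr ⟨_, rfl⟩))
  set o := x (f n) with ho
  have ho0 : o ≠ 0 := hx0 _
  have ho1 : o ≠ 1 := hx1 _
  have h0 := hB 0 (Or.inl rfl) ho0.symm
  have h1 := hB 1 (Or.inr (Or.inl rfl)) ho1.symm
  set B : ℤ := C * X with hBd
  have hB0' : 0 ≤ B := (hgt_nonneg _).trans hB0
  have hdiff : ∀ {p q : L}, hgt k ((p - c) / d) ≤ B → hgt k ((q - c) / d) ≤ B →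
      hgt k ((p - q) / d) ≤ 2 * B := by
    intro p q hp hq
    have h2 : (p - q) / d = (p - c) / d - (q - c) / d := by ring
    rw [h2]
    refine (hgt_sub _ _).trans ?_
    linarith
  have h1o : (1 : L) - o ≠ 0 := sub_ne_zero.2 ho1.symm
  have h0o : (0 : L) - o ≠ 0 := sub_ne_zero.2 ho0.symm
  have hCX : ((8 * C : ℕ) : ℤ) * X = 8 * B := by rw [hBd]; push_cast; ring
  rw [hCX]
  by_cases hio : x i = o
  · rw [hio]
    have h2 : o = (((1 - o)⁻¹ - 0) / d) / (((1 - o)⁻¹ - (0 - o)⁻¹) / d) := by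
      rw [zero_sub] at h0o ⊢
      have h3 : (1 - o)⁻¹ - (-o)⁻¹ = ((1 - o) * o)⁻¹ := by
        field_simp
        ring
      rw [h3, sub_zero]
      field_simp
    rw [h2]
    refine (hgt_div' _ _).trans ?_
    have h3 := hdiff h1 hB0
    have h4 := hdiff h1 h0
    linarith
  · have h2 := hB (x i) (Or.inr (Or.inr ⟨i, rfl⟩)) hio
    have hto : x i - o ≠ 0 := sub_ne_zero.2 hio
    set t := x i with ht
    have h3 : t = (((0 - o)⁻¹ - (t - o)⁻¹) / d) * (((1 - o)⁻¹ - 0) / d) /
        ((((t - o)⁻¹ - 0) / d) * (((0 - o)⁻¹ - (1 - o)⁻¹) / d)) := by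
      have h4 : (0 - o)⁻¹ - (t - o)⁻¹ = -(t * (o * (t - o))⁻¹) := by
        rw [zero_sub]
        field_simp
        ring
      have h5 : (0 - o)⁻¹ - (1 - o)⁻¹ = -(o * (1 - o))⁻¹ := by
        rw [zero_sub]
        field_simp
        ring
      rw [h4, h5, sub_zero, sub_zero]
      field_simp
    rw [h3]
    have g1 := hdiff h0 h2
    have g2 := hdiff h1 hB0
    have g3 := hdiff h2 hB0
    have g4 := hdiff h0 h1
    have g5 := hgt_mul' (k := k) (((0 - o)⁻¹ - (t - o)⁻¹) / d) (((1 - o)⁻¹ - 0) / d)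
    have g6 := hgt_mul' (k := k) (((t - o)⁻¹ - 0) / d) (((0 - o)⁻¹ - (1 - o)⁻¹) / d)
    have g7 := hgt_div' (k := k) ((((0 - o)⁻¹ - (t - o)⁻¹) / d) * (((1 - o)⁻¹ - 0) / d))
      ((((t - o)⁻¹ - 0) / d) * (((0 - o)⁻¹ - (1 - o)⁻¹) / d))
    linarith

end TH951.MN
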