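import Pool.Agent.TH951.MN.Ram

/-! A finite family of ultrametrics (written additively) on a large finite set whose sum is nearly
constant consists of nearly constant ultrametrics. -/

set_option autoImplicit false

namespace TH951.MN

universe u

theorem mono3 {a b c : ℕ} (hab : a < b) (hbc : b < c) : StrictMono ![a, b, c] := by
  rw [Fin.strictMono_iff_lt_succ]
  intro i
  fin_cases i
  · exact hab
  · exact hbc

theorem lt3 {a b c n : ℕ} (ha : a < n) (hb : b < n) (hc : c < n) : ∀ l, ![a, b, c] l < n := by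
  intro l
  fin_cases l
  · exact ha
  · exact hb
  · exact hc

theorem local_lemma (r : ℕ) : ∃ N C : ℕ, ∀ (K : ℕ), N ≤ K → ∀ (E : Type u) [Fintype E]
    (_ : Fintype.card E ≤ r) (ω : E → ℕ → ℕ → ℤ) (_ : ∀ e i j, ω e i j = ω e j i)
    (_ : ∀ e i j k, i < K → j < K → k < K → i ≠ j → j ≠ k → i ≠ k →
      min (ω e i j) (ω e j k) ≤ ω e i k) (c η : ℤ)
    (_ : ∀ i j, i < K → j < K → i ≠ j → |∑ e, ω e i j - c| ≤ η),
    ∃ τ : E → ℤ, ∀ e i j, i < K → j < K → i ≠ j → |ω e i j - τ e| ≤ C * η := by
  classical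
  obtain ⟨N, hN⟩ := ramsey'.{u} 3 (3 ^ r) (2 * r + 4)
  refine ⟨N, 2 * r ^ 2 + 2, ?_⟩
  intro K hNK E _ hE ω hsym hult c η hsum
  -- the two smallest of three are equal
  set n := 2 * r + 4 with hn
  obtain ⟨h, hinc, hlt, hhom⟩ := hN (E → Fin 3) (by
      rw [Fintype.card_fun, Fintype.card_fin]
      exact Nat.pow_le_pow_right (by norm_num) hE)
    (fun z e => if ω e (z 0) (z 2) = ω e (z 0) (z 1) ∧ ω e (z 0) (z 1) ≤ ω e (z 1) (z 2) then 0
      else if ω e (z 0) (z 2) = ω e (z 1) (z 2) ∧ ω e (z 1) (z 2) ≤ ω e (z 0) (z 1) then 1 else 2)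
  have hltK : ∀ i, i < n → h i < K := fun i hi => (hlt i hi).trans_le hNK
  have hne : ∀ i j, i < j → j < n → h i ≠ h j := fun i j hij hj => (hinc i j hij hj).ne
  -- the type of an embedding
  have hty : ∀ e : E, (∀ a b c, a < b → b < c → c < n → ω e (h a) (h c) = ω e (h a) (h b) ∧
      ω e (h a) (h b) ≤ ω e (h b) (h c)) ∨
      (∀ a b c, a < b → b < c → c < n → ω e (h a) (h c) = ω e (h b) (h c) ∧
      ω e (h b) (h c) ≤ ω e (h a) (h b)) := by
    intro e
    have hcol : ∀ a b c, a < b → b < c → c < n →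
        (if ω e (h a) (h c) = ω e (h a) (h b) ∧ ω e (h a) (h b) ≤ ω e (h b) (h c) then (0 : Fin 3)
      else if ω e (h a) (h c) = ω e (h b) (h c) ∧ ω e (h b) (h c) ≤ ω e (h a) (h b) then 1 else 2) =
        (if ω e (h 0) (h 2) = ω e (h 0) (h 1) ∧ ω e (h 0) (h 1) ≤ ω e (h 1) (h 2) then (0 : Fin 3)
      else if ω e (h 0) (h 2) = ω e (h 1) (h 2) ∧ ω e (h 1) (h 2) ≤ ω e (h 0) (h 1) then 1
        else 2) := by
      intro a b c hab hbc hc
      have h1 := hhom ![a, b, c] ![0, 1, 2] (mono3 hab hbc) (mono3 (by omega) (by omega))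
        (lt3 (by omega) (by omega) hc) (lt3 (by omega) (by omega) (by omega))
      exact congrFun h1 e
    by_cases c0 : ω e (h 0) (h 2) = ω e (h 0) (h 1) ∧ ω e (h 0) (h 1) ≤ ω e (h 1) (h 2)
    · left
      intro a b c hab hbc hc
      have := hcol a b c hab hbc hc
      rw [if_pos c0] at this
      by_contra hcon
      rw [if_neg hcon] at this
      revert this
      split_ifs <;> decide
    by_cases c1 : ω e (h 0) (h 2) = ω e (h 1) (h 2) ∧ ω e (h 1) (h 2) ≤ ω e (h 0) (h 1)
    · right
      intro a b c hab hbc hc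
      have := hcol a b c hab hbc hc
      rw [if_neg c0, if_pos c1] at this
      by_contra hcon
      revert this
      rw [if_neg hcon]
      split_ifs <;> decide
    · exfalso
      have key : ∀ a b c, a < b → b < c → c < n → ω e (h a) (h b) = ω e (h b) (h c) ∧
          ω e (h a) (h b) < ω e (h a) (h c) := by
        intro a b c hab hbc hc
        have h1 := hcol a b c hab hbc hc
        rw [if_neg c0, if_neg c1] at h1
        have h2 : ¬ (ω e (h a) (h c) = ω e (h a) (h b) ∧ ω e (h a) (h b) ≤ ω e (h b) (h c)) := by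
          intro hc; rw [if_pos hc] at h1; exact absurd h1 (by decide)
        rw [if_neg h2] at h1
        have h3 : ¬ (ω e (h a) (h c) = ω e (h b) (h c) ∧ ω e (h b) (h c) ≤ ω e (h a) (h b)) := by
          intro hc; rw [if_pos hc] at h1; exact absurd h1 (by decide)
        have ha := hltK a (by omega)
        have hb := hltK b (by omega)
        have hc' := hltK c hc
        have n1 := hne a b hab (by omega)
        have n2 := hne b c hbc hc
        have n3 := hne a c (by omega) hc
        have u1 := hult e _ _ _ ha hb hc' n1 n2 n3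
        have u2 := hult e _ _ _ hb hc' ha n2 n3.symm n1.symm
        have u3 := hult e _ _ _ hc' ha hb n3.symm n1 n2.symm
        rw [hsym e (h b) (h a), hsym e (h c) (h a)] at u2
        rw [hsym e (h c) (h a), hsym e (h c) (h b)] at u3
        omega
      have k1 := key 0 1 2 (by omega) (by omega) (by omega)
      have k2 := key 1 2 3 (by omega) (by omega) (by omega)
      have k3 := key 0 1 3 (by omega) (by omega) (by omega)
      omega
  set τ : E → ℤ := fun e => ω e (h 0) (h (n - 1)) with hτ
  have hlow : ∀ e a b, a < b → b < n → τ e ≤ ω e (h a) (h b) := by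
    intro e a b hab hb
    rcases hty e with ht | ht
    · by_cases ha : a = 0
      · subst ha
        by_cases hb' : b = n - 1
        · subst hb'; exact le_rfl
        · exact ((ht 0 b (n - 1) hab (by omega) (by omega)).1).le
      · have h1 := ht 0 a (n - 1) (by omega) (by omega) (by omega)
        have h2 : ω e (h a) (h (n - 1)) = ω e (h a) (h b) := by
          by_cases hb' : b = n - 1
          · rw [hb']
          · exact (ht a b (n - 1) hab (by omega) (by omega)).1
        simp only [hτ]; omega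
    · by_cases hb' : b = n - 1
      · subst hb'
        by_cases ha : a = 0
        · subst ha; exact le_rfl
        · exact ((ht 0 a (n - 1) (by omega) (by omega) (by omega)).1).le
      · have h1 := ht 0 b (n - 1) (by omega) (by omega) (by omega)
        have h2 : ω e (h 0) (h b) = ω e (h a) (h b) := by
          by_cases ha : a = 0
          · rw [ha]
          · exact (ht 0 a b (by omega) hab hb).1
        simp only [hτ]; omega
  have hτsum : |∑ e, τ e - c| ≤ η := hsum _ _ (hltK 0 (by omega)) (hltK (n - 1) (by omega))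
    (hne 0 (n - 1) (by omega) (by omega))
  have hη : 0 ≤ η := (abs_nonneg _).trans hτsum
  have hup : ∀ e a b, a < b → b < n → ω e (h a) (h b) ≤ τ e + 2 * η := by
    intro e a b hab hb
    have h1 := hsum _ _ (hltK a (by omega)) (hltK b hb) (hne a b hab hb)
    have h2 : ω e (h a) (h b) - τ e ≤ ∑ e, (ω e (h a) (h b) - τ e) :=
      Finset.single_le_sum (f := fun e => ω e (h a) (h b) - τ e)
        (fun e _ => sub_nonneg.2 (hlow e a b hab hb)) (Finset.mem_univ e)
    rw [Finset.sum_sub_distrib] at h2
    rw [abs_le] at h1 hτsum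
    omega
  set H : Finset ℕ := (Finset.range n).image h with hH
  have hHc : H.card = n := by
    rw [hH, Finset.card_image_of_injOn, Finset.card_range]
    intro a ha b hb hab
    rw [Finset.coe_range, Set.mem_Iio] at ha hb
    by_contra hcon
    rcases Nat.lt_or_gt_of_ne hcon with h1 | h1
    · exact hne a b h1 hb hab
    · exact hne b a h1 ha hab.symm
  have hHK : ∀ x ∈ H, x < K := by
    intro x hx
    obtain ⟨a, ha, rfl⟩ := Finset.mem_image.1 hx
    exact hltK a (Finset.mem_range.1 ha)
  have hHup : ∀ e, ∀ x ∈ H, ∀ y ∈ H, x ≠ y → ω e x y ≤ τ e + 2 * η := by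
    intro e x hx y hy hxy
    obtain ⟨a, ha, rfl⟩ := Finset.mem_image.1 hx
    obtain ⟨b, hb, rfl⟩ := Finset.mem_image.1 hy
    rw [Finset.mem_range] at ha hb
    rcases Nat.lt_trichotomy a b with h1 | h1 | h1
    · exact hup e a b h1 hb
    · exact absurd (by rw [h1]) hxy
    · rw [hsym]; exact hup e b a h1 ha
  -- the bad elements for a point
  have hbad : ∀ i, i < K → (H.filter fun x => x = i ∨ ∃ e, τ e + 2 * η < ω e i x).card ≤ r + 1 := by
    intro i hi
    have h1 : (H.filter fun x => x = i ∨ ∃ e, τ e + 2 * η < ω e i x) ⊆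
        {i} ∪ (Finset.univ : Finset E).biUnion (fun e => H.filter fun x => x ≠ i ∧
          τ e + 2 * η < ω e i x) := by
      intro x hx
      rw [Finset.mem_filter] at hx
      rw [Finset.mem_union, Finset.mem_singleton]
      by_cases hxi : x = i
      · exact Or.inl hxi
      · right
        obtain ⟨e, he⟩ := hx.2.resolve_left hxi
        exact Finset.mem_biUnion.2 ⟨e, Finset.mem_univ _, Finset.mem_filter.2 ⟨hx.1, hxi, he⟩⟩
    have h2 : ((Finset.univ : Finset E).biUnion (fun e => H.filter fun x => x ≠ i ∧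
          τ e + 2 * η < ω e i x)).card ≤ r := by
      refine (Finset.card_biUnion_le).trans ?_
      refine (Finset.sum_le_card_nsmul _ _ 1 ?_).trans (by simpa using hE)
      intro e _
      rw [Finset.card_le_one]
      intro x hx y hy
      rw [Finset.mem_filter] at hx hy
      by_contra hxy
      have h3 := hHup e x hx.1 y hy.1 hxy
      have h4 := hult e x i y (hHK x hx.1) hi (hHK y hy.1) hx.2.1 (fun h => hy.2.1 h.symm) hxy
      have h5 := hx.2.2
      have h6 := hy.2.2
      rw [hsym e x i] at h4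
      rw [min_le_iff] at h4
      omega
    calc _ ≤ _ := Finset.card_le_card h1
      _ ≤ _ := Finset.card_union_le _ _
      _ ≤ r + 1 := by rw [Finset.card_singleton]; omega
  -- lower bounds
  have hE' : (Fintype.card E : ℤ) ≤ r := by exact_mod_cast hE
  have hgood : ∀ i x, i < K → x < K → i ≠ x → (∀ e, ω e i x ≤ τ e + 2 * η) →
      ∀ e, τ e - 2 * r * η ≤ ω e i x := by
    intro i x hi hx hix hle e
    have h1 := hsum i x hi hx hix
    have h2 : ∑ e' ∈ Finset.univ.erase e, ω e' i x ≤ ∑ e' ∈ Finset.univ.erase e, (τ e' + 2 * η) :=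
      Finset.sum_le_sum fun e' _ => hle e'
    rw [Finset.sum_add_distrib, Finset.sum_const, Finset.card_erase_of_mem (Finset.mem_univ e),
      Finset.card_univ, nsmul_eq_mul] at h2
    have h3 := Finset.add_sum_erase Finset.univ (fun e => ω e i x) (Finset.mem_univ e)
    have h4 := Finset.add_sum_erase Finset.univ τ (Finset.mem_univ e)
    rw [abs_le] at h1 hτsum
    have h5 : ((Fintype.card E - 1 : ℕ) : ℤ) ≤ r - 1 := by
      have : 0 < Fintype.card E := Fintype.card_pos_iff.2 ⟨e⟩
      omega
    have h6 : ((Fintype.card E - 1 : ℕ) : ℤ) * (2 * η) ≤ (r - 1) * (2 * η) :=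
      mul_le_mul_of_nonneg_right h5 (by omega)
    nlinarith
  refine ⟨τ, ?_⟩
  intro e i j hi hj hij
  -- a good intermediate element
  obtain ⟨x, hxH, hxi, hxj⟩ : ∃ x ∈ H, ¬ (x = i ∨ ∃ e, τ e + 2 * η < ω e i x) ∧
      ¬ (x = j ∨ ∃ e, τ e + 2 * η < ω e j x) := by
    by_contra hcon
    push Not at hcon
    have h1 : H ⊆ (H.filter fun x => x = i ∨ ∃ e, τ e + 2 * η < ω e i x) ∪
        (H.filter fun x => x = j ∨ ∃ e, τ e + 2 * η < ω e j x) := by
      intro x hx
      rw [Finset.mem_union, Finset.mem_filter, Finset.mem_filter]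
      by_cases h2 : x = i ∨ ∃ e, τ e + 2 * η < ω e i x
      · exact Or.inl ⟨hx, h2⟩
      · right
        refine ⟨hx, ?_⟩
        push Not at h2
        exact hcon x hx h2
    have h2 := (Finset.card_le_card h1).trans (Finset.card_union_le _ _)
    have h3 := hbad i hi
    have h4 := hbad j hj
    omega
  push Not at hxi hxj
  have hxK := hHK x hxH
  have g1 := hgood i x hi hxK (fun h => hxi.1 h.symm) hxi.2
  have g2 := hgood j x hj hxK (fun h => hxj.1 h.symm) hxj.2
  have hlow' : ∀ e, τ e - 2 * r * η ≤ ω e i j := by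
    intro e
    have h1 := hult e i x j hi hxK hj (fun h => hxi.1 h.symm) hxj.1 hij
    have h2 := g1 e
    have h3 := g2 e
    rw [hsym e j x] at h3
    exact (le_min h2 h3).trans h1
  have h1 := hsum i j hi hj hij
  have h2 : ∑ e' ∈ Finset.univ.erase e, (τ e' - 2 * r * η) ≤ ∑ e' ∈ Finset.univ.erase e, ω e' i j :=
    Finset.sum_le_sum fun e' _ => hlow' e'
  rw [Finset.sum_sub_distrib, Finset.sum_const, Finset.card_erase_of_mem (Finset.mem_univ e),
    Finset.card_univ, nsmul_eq_mul] at h2
  have h3 := Finset.add_sum_erase Finset.univ (fun e => ω e i j) (Finset.mem_univ e)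
  have h4 := Finset.add_sum_erase Finset.univ τ (Finset.mem_univ e)
  rw [abs_le] at h1 hτsum
  have h5 : ((Fintype.card E - 1 : ℕ) : ℤ) ≤ r := by omega
  have hr : (0 : ℤ) ≤ r := by positivity
  have h6 : ((Fintype.card E - 1 : ℕ) : ℤ) * (2 * r * η) ≤ r * (2 * r * η) :=
    mul_le_mul_of_nonneg_right h5 (by positivity)
  have h7 := hlow' e
  rw [abs_le]
  push_cast
  constructor
  · rcases Nat.eq_zero_or_pos r with h0 | h0
    · subst h0; simp at h7 ⊢; omega
    · have : (1 : ℤ) ≤ r := by exact_mod_cast h0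
      nlinarith [mul_nonneg (mul_nonneg hr (sub_nonneg.2 this)) hη]
  · nlinarith

end TH951.MN
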