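import Pool.Agent.TH951.MN.Hts
import Pool.Agent.TH951.MN.LL

/-! Points of bounded degree with unit differences contain a large subset whose cross ratios have
small height. -/

set_option autoImplicit false

open FF Pool.Agent.W603.LV Pool.Agent.W603.PV

namespace TH951.MN

universe u v w

theorem place_eq_of_mul {k : Type u} [Field k] {F : Type v} [Field F] [Algebra k F]
    (V V' : Place k F) (c c' : ℕ) (hc : 0 < c)
    (h : ∀ f, (c : ℤ) * V.ord f = c' * V'.ord f) : V = V' := by
  obtain ⟨t, -, ht⟩ := V.surj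
  obtain ⟨s, -, hs⟩ := V'.surj
  have h1 := h t
  have h2 := h s
  rw [ht, mul_one] at h1
  rw [hs, mul_one] at h2
  have h3 : (c' : ℤ) ∣ c := ⟨_, h1⟩
  have h4 : (c : ℤ) ∣ c' := ⟨_, h2.symm⟩
  have h5 : c' = c := Nat.dvd_antisymm (Int.natCast_dvd_natCast.1 h3) (Int.natCast_dvd_natCast.1 h4)
  subst h5
  ext f
  exact mul_left_cancel₀ (by exact_mod_cast hc.ne') (h f)

section two

variable {k : Type u} [Field k] [IsAlgClosed k] [CharZero k]
  {F : Type v} [Field F] [Algebra k F] [IsFF k F] {L : Type w} [Field L] [Algebra k L]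
  [Algebra F L] [IsScalarTower k F L] [IsFF k L] [FiniteDimensional F L]
  {M : Type w} [Field M] [Algebra k M] [Algebra F M]
  [IsScalarTower k F M] [FiniteDimensional F M] [IsFF k M]

theorem ord_emb (W : Place k M) (e : L →ₐ[F] M) : ∃ P : Place k L, under F P = under F W ∧
    ∃ n : ℕ, 0 < n ∧ ∀ y : L, W.ord (e y) = n * P.ord y := by
  letI : Algebra L M := e.toRingHom.toAlgebra
  have h1 : IsScalarTower F L M := IsScalarTower.of_algebraMap_eq fun x => (e.commutes x).symm
  have h2 : IsScalarTower k L M := by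
    refine IsScalarTower.of_algebraMap_eq fun c => ?_
    rw [IsScalarTower.algebraMap_apply k F M, IsScalarTower.algebraMap_apply k F L]
    exact (e.commutes _).symm
  have h3 : ∀ y : L, W.ord (e y) = ram L W * (under L W).ord y := fun y => ord_under W y
  refine ⟨under L W, ?_, ram L W, (ram_spec (F := L) W).1, h3⟩
  refine place_eq_of_mul _ _ (ram L W * ram F (under L W)) (ram F W)
    (Nat.mul_pos (ram_spec (F := L) W).1 (ram_spec (F := F) _).1) ?_
  intro f
  rw [← ord_under W f, Nat.cast_mul, mul_assoc, ← ord_under (under L W) f, ← h3]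
  exact congrArg W.ord (e.commutes f)

theorem ord_prod {K : Type*} [Field K] [Algebra k K] {ι : Type*} (s : Finset ι) (f : ι → K)
    (hf : ∀ i ∈ s, f i ≠ 0) (P : Place k K) : P.ord (∏ i ∈ s, f i) = ∑ i ∈ s, P.ord (f i) := by
  classical
  induction s using Finset.induction_on with
  | empty => simp [P.ord_one]
  | insert a s ha ih =>
    rw [Finset.prod_insert ha, Finset.sum_insert ha, P.ord_mul (hf a (Finset.mem_insert_self a s))
      (Finset.prod_ne_zero_iff.2 fun i hi => hf i (Finset.mem_insert_of_mem hi)),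
      ih fun i hi => hf i (Finset.mem_insert_of_mem hi)]

/-- the norm of an element that is a unit over `V` is a unit at `V` -/
theorem ord_norm_eq_zero
    (hN : ∀ x : L, algebraMap F M (Algebra.norm F x) = ∏ e : L →ₐ[F] M, e x)
    (V : Place k F) {y : L} (hy : y ≠ 0) (h : ∀ P : Place k L, under F P = V → P.ord y = 0) :
    V.ord (Algebra.norm F y) = 0 := by
  obtain ⟨W, hW⟩ := exists_over_place (L := M) V
  have h1 := ord_under W (Algebra.norm F y)
  rw [hN, ord_prod Finset.univ _ (fun e _ => by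
    rw [Ne, map_eq_zero_iff e e.toRingHom.injective]; exact hy), hW] at h1
  have h2 : ∑ e : L →ₐ[F] M, W.ord (e y) = 0 := by
    refine Finset.sum_eq_zero fun e _ => ?_
    obtain ⟨P, hP, n, -, hPn⟩ := ord_emb W e
    rw [hPn, h P (hP.trans hW), mul_zero]
  rw [h2] at h1
  have h3 := (ram_spec (F := F) W).1
  rcases mul_eq_zero.1 h1.symm with h4 | h4
  · exfalso
    have : ram F W = 0 := by exact_mod_cast h4
    omega
  · exact h4

/-- partners of interlaced tuples -/
theorem tuple_partner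
    (hN : ∀ x : L, algebraMap F M (Algebra.norm F x) = ∏ e : L →ₐ[F] M, e x)
    {m : ℕ} (hm : 2 ^ Fintype.card (L →ₐ[F] M) < m) {N : ℕ} (x : ℕ → L)
    (hx : ∀ i j, i < N → j < N → i ≠ j → x i ≠ x j) (S : Finset (Place k F))
    (hS : ∀ P : Place k L, under F P ∉ S → ∀ i j, i < N → j < N → i ≠ j → P.ord (x i - x j) = 0)
    (T : Finset (Place k F)) (hT : ∀ i j, i < N → j < N → ∀ P : Place k F,
      P.ord (Algebra.norm F (x i - x j)) ≠ 0 → P ∈ T)
    (z : Fin (2 * m) → ℕ) (hz : StrictMono z) (hzN : ∀ l, z l < N) :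
    ∃ σ : Equiv.Perm (Fin m), σ ≠ 1 ∧
      ∑ P ∈ T, |rel (fun (P : Place k F) i j => P.ord (Algebra.norm F (x i - x j))) σ z P| ≤
        2 * (pc m.factorial * max (canDeg k F + S.card) 0) := by
  classical
  have hne : ∀ a b : Fin m, z ⟨2 * a + 1, by omega⟩ ≠ z ⟨2 * b, by omega⟩ := by
    intro a b h
    have := congrArg Fin.val (hz.injective h)
    simp only at this
    omega
  set u : Fin m → Fin m → F := fun a b => Algebra.norm F (x (z ⟨2 * a + 1, by omega⟩) -
    x (z ⟨2 * b, by omega⟩)) with hu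
  have hu0 : ∀ a b, u a b ≠ 0 := by
    intro a b
    rw [hu, Ne, Algebra.norm_eq_zero_iff, sub_eq_zero]
    exact hx _ _ (hzN _) (hzN _) (hne a b)
  have huS : ∀ P ∉ S, ∀ a b, P.ord (u a b) = 0 := by
    intro P hP a b
    refine ord_norm_eq_zero hN P ?_ ?_
    · rw [Ne, sub_eq_zero]
      exact hx _ _ (hzN _) (hzN _) (hne a b)
    · intro P' hP'
      exact hS P' (by rw [hP']; exact hP) _ _ (hzN _) (hzN _) (hne a b)
  set g : Equiv.Perm (Fin m) → F := fun σ => Equiv.Perm.sign σ • ∏ b, u b (σ b) with hg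
  have hgo : ∀ σ, ∀ P : Place k F, P.ord (g σ) = ∑ b, P.ord (u b (σ b)) := by
    intro σ P
    rw [← ord_prod Finset.univ _ (fun b _ => hu0 b (σ b))]
    rcases Int.units_eq_one_or (Equiv.Perm.sign σ) with h | h
    · simp only [hg]; rw [h, one_smul]
    · simp only [hg]; rw [h, Units.neg_smul, one_smul, P.ord_neg]
  have hg0 : ∀ σ, g σ ≠ 0 := by
    intro σ
    simp only [hg]
    rw [Ne, smul_eq_zero_iff_eq, Finset.prod_eq_zero_iff]
    rintro ⟨b, -, hb⟩
    exact hu0 _ _ hb
  have hdet : ∑ σ, g σ = 0 := by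
    have h1 := det_eq_zero hN hm (fun a => x (z ⟨2 * a + 1, by omega⟩))
      (fun b => x (z ⟨2 * b, by omega⟩))
    rw [← Matrix.det_transpose, Matrix.det_apply] at h1
    exact h1
  obtain ⟨σ, hσ, hh⟩ := partner (k := k) S g hg0 hdet (fun P hP σ τ => by
    rw [hgo, hgo, Finset.sum_congr rfl fun b _ => huS P hP b (σ b),
      Finset.sum_congr rfl fun b _ => huS P hP b (τ b)]) 1
  refine ⟨σ, hσ, ?_⟩
  rw [Fintype.card_perm, Fintype.card_fin] at hh
  have huT : ∀ a b, ∀ P : Place k F, P.ord (u a b) ≠ 0 → P ∈ T := fun a b P hP =>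
    hT _ _ (hzN _) (hzN _) P hP
  have hgT : ∀ σ, ∀ P : Place k F, P.ord (g σ) ≠ 0 → P ∈ T := by
    intro σ P hP
    rw [hgo] at hP
    obtain ⟨b, -, hb⟩ := Finset.exists_ne_zero_of_sum_ne_zero hP
    exact huT _ _ P hb
  have h1 := sum_abs_ord (k := k) (g 1 / g σ) T (by
    intro P hP
    by_contra hcon
    apply hP
    rw [P.ord_div (hg0 _) (hg0 _)]
    have h2 : P.ord (g 1) = 0 := by
      by_contra h; exact hcon (hgT _ P h)
    have h3 : P.ord (g σ) = 0 := by
      by_contra h; exact hcon (hgT _ P h)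
    rw [h2, h3]; rfl)
  have h2 : ∑ P ∈ T, |rel (fun (P : Place k F) i j => P.ord (Algebra.norm F (x i - x j))) σ z P| =
      ∑ P ∈ T, |P.ord (g 1 / g σ)| := by
    refine Finset.sum_congr rfl fun P _ => ?_
    unfold rel
    rw [P.ord_div (hg0 _) (hg0 _), hgo, hgo, ← Finset.sum_sub_distrib, ← abs_neg,
      ← Finset.sum_neg_distrib]
    congr 1
    refine Finset.sum_congr rfl fun b _ => ?_
    simp [hu]
  rw [h2, h1]
  linarith

/-- If all the norms of the differences of many elements are nearly proportional then all the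
differences are nearly proportional. -/
theorem spread (hN : ∀ x : L, algebraMap F M (Algebra.norm F x) = ∏ e : L →ₐ[F] M, e x)
    (hcard : Fintype.card (L →ₐ[F] M) = Module.finrank F L) {r C0 K : ℕ}
    (hr : Module.finrank F L ≤ r) (hK : 2 ≤ K)
    (hloc : ∀ (ω : (L →ₐ[F] M) → ℕ → ℕ → ℤ) (_ : ∀ e i j, ω e i j = ω e j i)
    (_ : ∀ e i j k, i < K → j < K → k < K → i ≠ j → j ≠ k → i ≠ k →
      min (ω e i j) (ω e j k) ≤ ω e i k) (c η : ℤ)
    (_ : ∀ i j, i < K → j < K → i ≠ j → |∑ e, ω e i j - c| ≤ η),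
    ∃ τ : (L →ₐ[F] M) → ℤ, ∀ e i j, i < K → j < K → i ≠ j → |ω e i j - τ e| ≤ C0 * η)
    (z : ℕ → L) (hz : ∀ i j, i < K → j < K → i ≠ j → z i ≠ z j) (B : ℤ)
    (hB : ∀ i j, i < K → j < K → i ≠ j →
      hgt k (Algebra.norm F (z i - z j) / Algebra.norm F (z 0 - z 1)) ≤ B)
    (i j a b : ℕ) (hi : i < K) (hj : j < K) (ha : a < K) (hb : b < K) (hij : i ≠ j) (hab : a ≠ b) :
    hgt k ((z i - z j) / (z a - z b)) ≤ 4 * C0 * r * K ^ 2 * B := by
  classical
  set v : ℕ → ℕ → F := fun i j => Algebra.norm F (z i - z j) with hv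
  have hv0 : ∀ i j, i < K → j < K → i ≠ j → v i j ≠ 0 := by
    intro i j hi hj hij
    simp only [hv]
    rw [Ne, Algebra.norm_eq_zero_iff, sub_eq_zero]
    exact hz _ _ hi hj hij
  have hz0 : ∀ i j, i < K → j < K → i ≠ j → z i - z j ≠ 0 := fun i j hi hj hij =>
    sub_ne_zero.2 (hz _ _ hi hj hij)
  have he0 : ∀ (e : L →ₐ[F] M) {y : L}, y ≠ 0 → e y ≠ 0 := fun e y hy => by
    rw [Ne, map_eq_zero_iff e e.toRingHom.injective]; exact hy
  have h01 : (0 : ℕ) ≠ 1 := by omega
  have h0K : 0 < K := by omega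
  have h1K : 1 < K := by omega
  -- finite sets of places
  obtain ⟨T1, hT1⟩ := exists_supp (k := k) (Finset.univ : Finset ((L →ₐ[F] M) × Fin K × Fin K))
    (fun p => p.1 (z p.2.1 - z p.2.2))
  obtain ⟨T2, hT2⟩ := exists_supp (k := k) (Finset.univ : Finset (Fin K × Fin K))
    (fun p => algebraMap F M (v p.1 p.2 / v 0 1))
  set T := T1 ∪ T2 with hT
  have hTe : ∀ (e : L →ₐ[F] M) i j, i < K → j < K → ∀ P : Place k M,
      P.ord (e (z i - z j)) ≠ 0 → P ∈ T := fun e i j hi hj P hP =>
    Finset.mem_union_left _ (hT1 (e, ⟨i, hi⟩, ⟨j, hj⟩) (Finset.mem_univ _) P hP)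
  have hTv : ∀ i j, i < K → j < K → ∀ P : Place k M,
      P.ord (algebraMap F M (v i j / v 0 1)) ≠ 0 → P ∈ T := fun i j hi hj P hP =>
    Finset.mem_union_right _ (hT2 (⟨i, hi⟩, ⟨j, hj⟩) (Finset.mem_univ _) P hP)
  set η : Place k M → ℤ := fun W => ∑ p ∈ (Finset.range K ×ˢ Finset.range K).filter
    (fun p => p.1 ≠ p.2), |W.ord (algebraMap F M (v p.1 p.2 / v 0 1))| with hη
  have hsplit : ∀ W : Place k M, ∀ i j, i < K → j < K → i ≠ j →
      ∑ e : L →ₐ[F] M, W.ord (e (z i - z j)) = W.ord (algebraMap F M (v i j)) := by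
    intro W i j hi hj hij
    simp only [hv]
    rw [hN, ord_prod Finset.univ _ (fun e _ => he0 e (hz0 i j hi hj hij))]
  have hpt : ∀ W : Place k M, ∃ τ : (L →ₐ[F] M) → ℤ, ∀ e i j, i < K → j < K → i ≠ j →
      |W.ord (e (z i - z j)) - τ e| ≤ C0 * η W := by
    intro W
    refine hloc (fun e i j => W.ord (e (z i - z j))) ?_ ?_ (W.ord (algebraMap F M (v 0 1))) (η W) ?_
    · intro e i j
      change W.ord (e (z i - z j)) = W.ord (e (z j - z i))
      rw [← neg_sub, map_neg, W.ord_neg]
    · intro e i j l hi hj hl hij hjl hil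
      have h1 := W.ord_add (he0 e (hz0 i j hi hj hij)) (he0 e (hz0 j l hj hl hjl)) (by
        rw [← map_add, sub_add_sub_cancel]; exact he0 e (hz0 i l hi hl hil))
      rwa [← map_add, sub_add_sub_cancel] at h1
    · intro i j hi hj hij
      rw [hsplit W i j hi hj hij]
      have h1 : W.ord (algebraMap F M (v i j / v 0 1)) = W.ord (algebraMap F M (v i j)) -
          W.ord (algebraMap F M (v 0 1)) := by
        rw [map_div₀, W.ord_div (by simpa using hv0 i j hi hj hij)
          (by simpa using hv0 0 1 h0K h1K h01)]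
      rw [← h1]
      exact Finset.single_le_sum (f := fun p : ℕ × ℕ =>
        |W.ord (algebraMap F M (v p.1 p.2 / v 0 1))|) (fun p _ => abs_nonneg _)
        (a := (i, j)) (by simp [hi, hj, hij])
  -- the sum of the errors
  have hη2 : ∑ W ∈ T, η W ≤ K ^ 2 * (2 * (Module.finrank F M * B)) := by
    simp only [hη]
    rw [Finset.sum_comm]
    have hB0 : 0 ≤ B := (hgt_nonneg _).trans (hB 0 1 h0K h1K h01)
    calc ∑ p ∈ (Finset.range K ×ˢ Finset.range K).filter (fun p => p.1 ≠ p.2),
          ∑ W ∈ T, |W.ord (algebraMap F M (v p.1 p.2 / v 0 1))|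
        ≤ ∑ p ∈ (Finset.range K ×ˢ Finset.range K).filter (fun p => p.1 ≠ p.2),
          (2 * (Module.finrank F M * B)) := by
          refine Finset.sum_le_sum fun p hp => ?_
          rw [Finset.mem_filter, Finset.mem_product, Finset.mem_range, Finset.mem_range] at hp
          rw [sum_abs_ord _ T (hTv _ _ hp.1.1 hp.1.2), hgt_algebraMap (F := F) (L := M)]
          have h1 := hB _ _ hp.1.1 hp.1.2 hp.2
          have h2 : (0 : ℤ) ≤ Module.finrank F M := by positivity
          have h3 := mul_le_mul_of_nonneg_left h1 h2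
          simp only [hv]
          linarith
      _ = ((Finset.range K ×ˢ Finset.range K).filter (fun p => p.1 ≠ p.2)).card *
          (2 * (Module.finrank F M * B)) := by rw [Finset.sum_const, nsmul_eq_mul]
      _ ≤ K ^ 2 * (2 * (Module.finrank F M * B)) := by
          refine mul_le_mul_of_nonneg_right ?_ (by positivity)
          have h1 := Finset.card_filter_le (Finset.range K ×ˢ Finset.range K) (fun p => p.1 ≠ p.2)
          rw [Finset.card_product, Finset.card_range] at h1
          have h2 : ((((Finset.range K ×ˢ Finset.range K).filter (fun p => p.1 ≠ p.2)).card : ℕ) : ℤ)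
            ≤ ((K * K : ℕ) : ℤ) := by exact_mod_cast h1
          push_cast at h2
          linarith [sq (K : ℤ)]
  -- the heights of the conjugates
  have hconj : ∀ e : L →ₐ[F] M, hgt k (e ((z i - z j) / (z a - z b))) ≤
      2 * C0 * (K ^ 2 * (2 * (Module.finrank F M * B))) := by
    intro e
    have hord : ∀ W : Place k M, W.ord (e ((z i - z j) / (z a - z b))) =
        W.ord (e (z i - z j)) - W.ord (e (z a - z b)) := fun W => by
      rw [map_div₀, W.ord_div (he0 e (hz0 i j hi hj hij)) (he0 e (hz0 a b ha hb hab))]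
    rw [hgt_finset _ T (by
      intro P hP
      by_contra hcon
      apply hP
      have h1 : P.ord (e (z i - z j)) = 0 := by
        by_contra h; exact hcon (hTe e i j hi hj P h)
      have h2 : P.ord (e (z a - z b)) = 0 := by
        by_contra h; exact hcon (hTe e a b ha hb P h)
      rw [hord, h1, h2]; rfl)]
    have h1 : ∀ W ∈ T, max (-W.ord (e ((z i - z j) / (z a - z b)))) 0 ≤ 2 * C0 * η W := by
      intro W _
      obtain ⟨τ, hτ⟩ := hpt W
      have h2 := hτ e i j hi hj hij
      have h3 := hτ e a b ha hb hab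
      rw [hord]
      rw [abs_le] at h2 h3
      have h4 : 0 ≤ η W := Finset.sum_nonneg fun _ _ => abs_nonneg _
      apply max_le
      · linarith
      · positivity
    refine (Finset.sum_le_sum h1).trans ?_
    rw [← Finset.mul_sum]
    exact mul_le_mul_of_nonneg_left hη2 (by positivity)
  have hD : (0 : ℤ) < Module.finrank F M := by
    exact_mod_cast (Module.finrank_pos : 0 < Module.finrank F M)
  have h1 := sum_hgt_emb (k := k) (M := M) hcard ((z i - z j) / (z a - z b))
  have h2 : ∑ e : L →ₐ[F] M, hgt k (e ((z i - z j) / (z a - z b))) ≤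
      r * (2 * C0 * (K ^ 2 * (2 * (Module.finrank F M * B)))) := by
    refine (Finset.sum_le_card_nsmul _ _ _ fun e _ => hconj e).trans ?_
    rw [Finset.card_univ, hcard, nsmul_eq_mul]
    have hB0 : 0 ≤ B := (hgt_nonneg _).trans (hB 0 1 h0K h1K h01)
    exact mul_le_mul_of_nonneg_right (by exact_mod_cast hr) (by positivity)
  rw [h1] at h2
  have h3 : (r : ℤ) * (2 * C0 * (K ^ 2 * (2 * (Module.finrank F M * B)))) =
      Module.finrank F M * (4 * C0 * r * K ^ 2 * B) := by ring
  rw [h3] at h2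
  exact le_of_mul_le_mul_left h2 hD

end two

end TH951.MN
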