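import Pool.Agent.TH951.MN.Clus

/-! Linear relations between the norms of `x - y j`, with coefficients of small height. -/

set_option autoImplicit false

open FF Pool.Agent.W603.LV Pool.Agent.W603.PV

namespace TH951.MN

universe u v w

/-- a maximal non-vanishing minor -/
theorem exists_minor {M 𝒯 J : Type*} [Field M] [Fintype 𝒯] (V : 𝒯 → J → M) :
    ∃ (ρ : ℕ) (R : Fin ρ → 𝒯) (C : Fin ρ → J), ρ ≤ Fintype.card 𝒯 ∧
      (Matrix.of fun a b => V (R a) (C b)).det ≠ 0 ∧
      ∀ t j, V t j * (Matrix.of fun a b => V (R a) (C b)).det = ∑ b : Fin ρ, V t (C b) *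
        ((-1) ^ (b : ℕ) * (Matrix.of fun a b' => V (R a)
          (Fin.cons (α := fun _ => J) j C (b.succ.succAbove b'))).det) := by
  classical
  let P : ℕ → Prop := fun ρ => ∃ (R : Fin ρ → 𝒯) (C : Fin ρ → J),
    (Matrix.of fun a b => V (R a) (C b)).det ≠ 0
  have hP0 : P 0 := ⟨fun a => a.elim0, fun a => a.elim0, by simp⟩
  have hPc : ∀ ρ, P ρ → ρ ≤ Fintype.card 𝒯 := by
    rintro ρ ⟨R, C, h⟩
    have hR : Function.Injective R := by
      intro a b hab
      by_contra hne
      apply h
      exact Matrix.det_zero_of_row_eq hne (by ext c; simp [Matrix.of_apply, hab])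
    simpa using Fintype.card_le_of_injective R hR
  set ρ := Nat.findGreatest P (Fintype.card 𝒯) with hρ
  have hPρ : P ρ := Nat.findGreatest_spec (Nat.zero_le _) hP0
  obtain ⟨R, C, h⟩ := hPρ
  refine ⟨ρ, R, C, Nat.findGreatest_le _, h, ?_⟩
  intro t j
  have h1 : ¬ P (ρ + 1) := by
    intro h2
    have h3 := Nat.le_findGreatest (hPc _ h2) h2
    omega
  have h2 : (Matrix.of fun a b => V (Fin.cons (α := fun _ => 𝒯) t R a)
      (Fin.cons (α := fun _ => J) j C b)).det = 0 := by
    by_contra hcon
    exact h1 ⟨_, _, hcon⟩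
  rw [Matrix.det_succ_row_zero, Fin.sum_univ_succ] at h2
  have h3 : (Matrix.of fun a b => V (Fin.cons (α := fun _ => 𝒯) t R a)
      (Fin.cons (α := fun _ => J) j C b)).submatrix Fin.succ (Fin.succAbove 0) =
      Matrix.of fun a b => V (R a) (C b) := by
    ext a b
    simp
  rw [h3] at h2
  simp only [Fin.val_zero, pow_zero, one_mul, Matrix.of_apply, Fin.cons_zero, Fin.val_succ,
    Fin.cons_succ] at h2
  rw [add_eq_zero_iff_eq_neg] at h2
  rw [h2, ← Finset.sum_neg_distrib]
  refine Finset.sum_congr rfl fun b _ => ?_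
  have h4 : (Matrix.of fun a b => V (Fin.cons (α := fun _ => 𝒯) t R a)
      (Fin.cons (α := fun _ => J) j C b)).submatrix Fin.succ (Fin.succAbove b.succ) =
      Matrix.of fun a b' => V (R a) (Fin.cons (α := fun _ => J) j C (b.succ.succAbove b')) := by
    ext a b
    simp
  rw [h4, pow_succ]
  ring

section two

variable {k : Type u} [Field k] [IsAlgClosed k] [CharZero k]
  {F : Type v} [Field F] [Algebra k F] [IsFF k F] {L : Type w} [Field L] [Algebra k L]
  [Algebra F L] [IsScalarTower k F L] [IsFF k L] [FiniteDimensional F L]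
  {M : Type w} [Field M] [Algebra k M] [Algebra F M]
  [IsScalarTower k F M] [FiniteDimensional F M] [IsFF k M]

omit [IsAlgClosed k] [CharZero k] [IsFF k F] [IsScalarTower k F L] [IsFF k L]
  [FiniteDimensional F L] in
/-- the coordinates of `y` -/
noncomputable def co (M : Type w) [Field M] [Algebra F M] (t : Finset (L →ₐ[F] M)) (y : L) : M :=
  ∏ e ∈ t, (-(e y))

open scoped Classical in
theorem norm_expand' (hN : ∀ x : L, algebraMap F M (Algebra.norm F x) = ∏ e : L →ₐ[F] M, e x)
    (x y : L) : algebraMap F M (Algebra.norm F (x - y)) =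
      ∑ t : Finset (L →ₐ[F] M), co M t y * ∏ e ∈ tᶜ, e x := by
  classical
  unfold co
  rw [hN, ← Fintype.prod_add]
  exact Finset.prod_congr rfl fun e _ => by rw [map_sub, neg_add_eq_sub]

/-- the action of the Galois group on embeddings -/
def act (g : M ≃ₐ[F] M) : (L →ₐ[F] M) ↪ (L →ₐ[F] M) :=
  ⟨fun e => (g : M →ₐ[F] M).comp e, fun e e' h => by
    ext y
    have := congrArg (fun f : L →ₐ[F] M => f y) h
    simpa using this⟩

theorem act_act (g : M ≃ₐ[F] M) (t : Finset (L →ₐ[F] M)) :
    (t.map (act g.symm)).map (act g) = t := by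
  classical
  ext e
  simp only [Finset.mem_map]
  constructor
  · rintro ⟨_, ⟨e', he', rfl⟩, rfl⟩
    have : act g (act g.symm e') = e' := by
      ext y; simp [act]
    rwa [this]
  · intro he
    refine ⟨act g.symm e, ⟨e, he, rfl⟩, ?_⟩
    ext y; simp [act]

theorem co_map (g : M ≃ₐ[F] M) (t : Finset (L →ₐ[F] M)) (y : L) :
    co M (t.map (act g)) y = g (co M t y) := by
  unfold co
  rw [Finset.prod_map, map_prod]
  refine Finset.prod_congr rfl fun e _ => ?_
  rw [map_neg]
  rfl

theorem hgt_co (hcard : Fintype.card (L →ₐ[F] M) = Module.finrank F L)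
    (t : Finset (L →ₐ[F] M)) (y : L) : hgt k (co M t y) ≤ Module.finrank F M * hgt k y := by
  unfold co
  refine (hgt_prod_le' _ _).trans ?_
  rw [← sum_hgt_emb (k := k) (M := M) hcard y]
  rw [Finset.sum_congr rfl fun e _ => hgt_neg (k := k) (e y)]
  exact Finset.sum_le_sum_of_subset_of_nonneg (Finset.subset_univ t) fun _ _ _ => hgt_nonneg _

/-- The norms of `x - y j` satisfy linear relations with coefficients of small height. -/
theorem relations (hN : ∀ x : L, algebraMap F M (Algebra.norm F x) = ∏ e : L →ₐ[F] M, e x)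
    (hcard : Fintype.card (L →ₐ[F] M) = Module.finrank F L) [IsGalois F M] {r : ℕ}
    (hr : Module.finrank F L ≤ r) {J : Type*} (y : J → L) (B : ℤ) (hB0 : 0 ≤ B)
    (hB : ∀ j, hgt k (y j) ≤ B) :
    ∃ (ρ : ℕ) (C : Fin ρ → J) (a : Fin ρ → J → F), ρ ≤ 2 ^ r ∧
      (∀ b j, hgt k (a b j) ≤ 2 * ((2 ^ r).factorial * 2 ^ r : ℕ) * B) ∧
      ∀ x j, Algebra.norm F (x - y j) = ∑ b, a b j * Algebra.norm F (x - y (C b)) := by
  classical
  obtain ⟨ρ, R, C, hρ, hdet, hrel⟩ := exists_minor
    (fun (t : Finset (L →ₐ[F] M)) (j : J) => co M t (y j))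
  have hρ' : ρ ≤ 2 ^ r := by
    refine hρ.trans ?_
    rw [Fintype.card_finset, hcard]
    exact Nat.pow_le_pow_right (by norm_num) hr
  set Δ := (Matrix.of fun a b => co M (R a) (y (C b))).det with hΔ
  set α : Fin ρ → J → M := fun b j => ((-1) ^ (b : ℕ) * (Matrix.of fun a b' => co M (R a)
          (y (Fin.cons (α := fun _ => J) j C (b.succ.succAbove b')))).det) / Δ with hα
  have hα1 : ∀ (t : Finset (L →ₐ[F] M)) j, co M t (y j) = ∑ b, α b j * co M t (y (C b)) := by
    intro t j
    have h1 := hrel t j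
    have h2 : co M t (y j) = (co M t (y j) * Δ) / Δ := by
      rw [mul_div_assoc, div_self hdet, mul_one]
    rw [h2, h1, Finset.sum_div]
    refine Finset.sum_congr rfl fun b _ => ?_
    simp only [hα]
    ring
  have hfix : ∀ b j, ∀ g : M ≃ₐ[F] M, g (α b j) = α b j := by
    intro b j g
    have h1 : ∀ t : Finset (L →ₐ[F] M), co M t (y j) =
        ∑ b, g (α b j) * co M t (y (C b)) := by
      intro t
      have h2 := congrArg g (hα1 (t.map (act g.symm)) j)
      rw [← co_map, act_act, map_sum] at h2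
      rw [h2]
      refine Finset.sum_congr rfl fun b _ => ?_
      rw [map_mul, ← co_map, act_act]
    have h3 : (Matrix.of fun a b => co M (R a) (y (C b))).mulVec (fun b => g (α b j) - α b j) =
        0 := by
      ext a
      rw [Matrix.mulVec, Pi.zero_apply]
      have h4 := h1 (R a)
      have h5 := hα1 (R a) j
      rw [h5] at h4
      unfold dotProduct
      rw [← sub_eq_zero, ← Finset.sum_sub_distrib] at h4
      rw [← neg_eq_zero, ← Finset.sum_neg_distrib, ← h4]
      refine Finset.sum_congr rfl fun b _ => ?_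
      change -(co M (R a) (y (C b)) * (g (α b j) - α b j)) = _
      ring
    have h6 := Matrix.eq_zero_of_mulVec_eq_zero hdet h3
    exact sub_eq_zero.1 (congrFun h6 b)
  have hF : ∀ b j, ∃ a : F, algebraMap F M a = α b j := fun b j =>
    (IsGalois.mem_range_algebraMap_iff_fixed _).2 (hfix b j)
  choose a ha using hF
  refine ⟨ρ, C, a, hρ', ?_, ?_⟩
  · intro b j
    have hD : (0 : ℤ) < Module.finrank F M := by
      exact_mod_cast (Module.finrank_pos : 0 < Module.finrank F M)
    have hco : ∀ (t : Finset (L →ₐ[F] M)) j, hgt k (co M t (y j)) ≤ Module.finrank F M * B := fun t j =>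
      (hgt_co hcard t (y j)).trans (mul_le_mul_of_nonneg_left (hB j) hD.le)
    have h1 : hgt k Δ ≤ ρ.factorial * (ρ * (Module.finrank F M * B)) :=
      hgt_det _ _ fun i j => hco _ _
    have h2 : hgt k ((-1) ^ (b : ℕ) * (Matrix.of fun a b' => co M (R a)
          (y (Fin.cons (α := fun _ => J) j C (b.succ.succAbove b')))).det) ≤
          ρ.factorial * (ρ * (Module.finrank F M * B)) := by
      refine le_trans (le_of_eq ?_) (hgt_det (Matrix.of fun a b' => co M (R a)
          (y (Fin.cons (α := fun _ => J) j C (b.succ.succAbove b')))) _ fun i j => hco _ _)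
      rcases neg_one_pow_eq_or M (b : ℕ) with h | h
      · rw [h, one_mul]
      · rw [h, neg_one_mul, hgt_neg]
    have h3 : hgt k (α b j) ≤ ρ.factorial * (ρ * (Module.finrank F M * B)) +
        ρ.factorial * (ρ * (Module.finrank F M * B)) := (hgt_div' _ _).trans (add_le_add h2 h1)
    rw [← ha, hgt_algebraMap (F := F) (L := M)] at h3
    have h4 : (ρ.factorial : ℤ) * (ρ * (Module.finrank F M * B)) =
        Module.finrank F M * ((ρ.factorial * ρ : ℕ) * B) := by push_cast; ring
    rw [h4, ← mul_add] at h3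
    have h5 := le_of_mul_le_mul_left h3 hD
    have h6 : ((ρ.factorial * ρ : ℕ) : ℤ) ≤ (((2 ^ r).factorial * 2 ^ r : ℕ) : ℤ) := by
      exact_mod_cast Nat.mul_le_mul (Nat.factorial_le hρ') hρ'
    have h7 := mul_le_mul_of_nonneg_right h6 hB0
    linarith
  · intro x j
    apply (algebraMap F M).injective
    rw [norm_expand' hN, map_sum]
    simp only [map_mul, ha]
    have h1 : ∑ b : Fin ρ, α b j * algebraMap F M (Algebra.norm F (x - y (C b))) =
        ∑ b : Fin ρ, ∑ t : Finset (L →ₐ[F] M), α b j * (co M t (y (C b)) * ∏ e ∈ tᶜ, e x) :=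
      Finset.sum_congr rfl fun b _ => by rw [norm_expand' hN x (y (C b)), Finset.mul_sum]
    rw [h1, Finset.sum_comm]
    refine Finset.sum_congr rfl fun t _ => ?_
    rw [hα1 t j, Finset.sum_mul]
    exact Finset.sum_congr rfl fun b _ => by ring

end two

end TH951.MN
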