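import Pool.Agent.W603.PV.Disc
import Pool.Agent.W603.LV.Blk2

/-! Galois closures, norms and determinants of norms. -/

set_option autoImplicit false

open FF Pool.Agent.W603.LV Pool.Agent.W603.PV

namespace TH951.MN

universe u v w

/-- The Galois closure of a finite extension, with the product formula for norms. -/
theorem exists_gal (F : Type v) [Field F] [CharZero F] (L : Type w) [Field L] [Algebra F L]
    [FiniteDimensional F L] :
    ∃ (M : Type w) (_ : Field M) (_ : Algebra F M), FiniteDimensional F M ∧ IsGalois F M ∧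
      (∀ x : L, algebraMap F M (Algebra.norm F x) = ∏ e : L →ₐ[F] M, e x) ∧
      Fintype.card (L →ₐ[F] M) = Module.finrank F L := by
  classical
  let Ω := AlgebraicClosure L
  haveI : Algebra.IsSeparable F L := inferInstance
  haveI : IsAlgClosure F Ω :=
    ⟨inferInstance, Algebra.IsAlgebraic.trans F L Ω⟩
  haveI : Normal F Ω := IsAlgClosure.normal F Ω
  let M := IntermediateField.normalClosure F L Ω
  refine ⟨M, inferInstance, inferInstance, inferInstance, ?_, ?_, ?_⟩
  · haveI : Normal F M := normalClosure.normal F L Ω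
    haveI : Algebra.IsSeparable F M := inferInstance
    exact ⟨⟩
  · intro x
    apply (algebraMap M Ω).injective
    rw [← IsScalarTower.algebraMap_apply, Algebra.norm_eq_prod_embeddings F Ω x, map_prod]
    exact (Fintype.prod_equiv (normalClosure.algHomEquiv F L Ω) _ _ (fun e => rfl)).symm
  · rw [Fintype.card_congr (normalClosure.algHomEquiv F L Ω), AlgHom.card]

section det

variable {F : Type v} [Field F] {L : Type w} [Field L] [Algebra F L] [FiniteDimensional F L]
  {M : Type w} [Field M] [Algebra F M]

open scoped Classical in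
/-- the rank-one expansion of a norm -/
theorem norm_expand (hN : ∀ x : L, algebraMap F M (Algebra.norm F x) = ∏ e : L →ₐ[F] M, e x)
    (x y : L) : algebraMap F M (Algebra.norm F (x - y)) =
      ∑ t : Finset (L →ₐ[F] M), (∏ e ∈ t, e x) * ∏ e ∈ tᶜ, (-(e y)) := by
  classical
  rw [hN, ← Fintype.prod_add]
  exact Finset.prod_congr rfl fun e _ => by rw [map_sub, sub_eq_add_neg]

theorem det_eq_zero (hN : ∀ x : L, algebraMap F M (Algebra.norm F x) = ∏ e : L →ₐ[F] M, e x)
    {m : ℕ} (hm : 2 ^ Fintype.card (L →ₐ[F] M) < m) (x y : Fin m → L) :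
    (Matrix.of fun a b => Algebra.norm F (x a - y b)).det = 0 := by
  classical
  apply (algebraMap F M).injective
  rw [map_zero, RingHom.map_det]
  by_contra hcon
  set A : Matrix (Fin m) (Finset (L →ₐ[F] M)) M := Matrix.of fun a t => ∏ e ∈ t, e (x a) with hA
  set B : Matrix (Finset (L →ₐ[F] M)) (Fin m) M := Matrix.of fun t b => ∏ e ∈ tᶜ, (-(e (y b)))
    with hB
  have h1 : (algebraMap F M).mapMatrix (Matrix.of fun a b => Algebra.norm F (x a - y b)) =
      A * B := by
    ext a b
    rw [RingHom.mapMatrix_apply, Matrix.map_apply, Matrix.of_apply, norm_expand hN,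
      Matrix.mul_apply]
    rfl
  rw [h1] at hcon
  have h2 : (A * B).rank = m := by
    rw [Matrix.rank_of_isUnit]
    · simp
    · rw [Matrix.isUnit_iff_isUnit_det]
      exact isUnit_iff_ne_zero.2 hcon
  have h3 := (Matrix.rank_mul_le_left A B).trans (Matrix.rank_le_card_width A)
  rw [Fintype.card_finset, h2] at h3
  omega

end det

end TH951.MN
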