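import Pool.Agent.TH951.MN.Gal
import Pool.Agent.Helper386.D5V.Helper386_FF_Riemann

/-! Heights and places in finite extensions of function fields. -/

set_option autoImplicit false

open FF Pool.Agent.W603.LV Pool.Agent.W603.PV

namespace TH951.MN

universe u v w

section one

variable {k : Type u} [Field k] {K : Type v} [Field K] [Algebra k K] [CharZero k] [IsFF k K]
  [IsAlgClosed k]

omit [CharZero k] [IsFF k K] [IsAlgClosed k] in
theorem hgt_zero : hgt k (0 : K) = 0 := by
  rw [hgt_finset (k := k) (0 : K) ∅ (fun P h => absurd P.ord_zero h)]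
  rfl

omit [CharZero k] [IsFF k K] [IsAlgClosed k] in
theorem hgt_neg (f : K) : hgt k (-f) = hgt k f := hgt_congr fun P => P.ord_neg f

theorem hgt_add (f g : K) : hgt k (f + g) ≤ hgt k f + hgt k g := by
  by_cases hf : f = 0
  · rw [hf, zero_add, hgt_zero, zero_add]
  by_cases hg : g = 0
  · rw [hg, add_zero, hgt_zero, add_zero]
  by_cases hfg : f + g = 0
  · rw [hfg, hgt_zero]
    have := hgt_nonneg (k := k) f
    have := hgt_nonneg (k := k) g
    omega
  obtain ⟨T, hT⟩ := exists_supp (k := k) (Finset.univ : Finset (Fin 3)) ![f, g, f + g]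
  have h1 : ∀ P : Place k K, P.ord f ≠ 0 → P ∈ T := fun P => hT 0 (Finset.mem_univ _) P
  have h2 : ∀ P : Place k K, P.ord g ≠ 0 → P ∈ T := fun P => hT 1 (Finset.mem_univ _) P
  have h3 : ∀ P : Place k K, P.ord (f + g) ≠ 0 → P ∈ T := fun P => hT 2 (Finset.mem_univ _) P
  rw [hgt_finset _ T h1, hgt_finset _ T h2, hgt_finset _ T h3, ← Finset.sum_add_distrib]
  refine Finset.sum_le_sum fun P _ => ?_
  have := P.ord_add hf hg hfg
  omega

theorem hgt_sub (f g : K) : hgt k (f - g) ≤ hgt k f + hgt k g := by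
  rw [sub_eq_add_neg, ← hgt_neg g]
  exact hgt_add f (-g)

theorem hgt_mul' (f g : K) : hgt k (f * g) ≤ hgt k f + hgt k g := by
  by_cases hf : f = 0
  · rw [hf, zero_mul, hgt_zero, zero_add]
    exact hgt_nonneg _
  by_cases hg : g = 0
  · rw [hg, mul_zero, hgt_zero, add_zero]
    exact hgt_nonneg _
  exact hgt_mul hf hg

theorem hgt_div' (f g : K) : hgt k (f / g) ≤ hgt k f + hgt k g := by
  rw [div_eq_mul_inv, ← hgt_inv g]
  exact hgt_mul' f g⁻¹

theorem hgt_sum_le {ι : Type*} (s : Finset ι) (f : ι → K) :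
    hgt k (∑ i ∈ s, f i) ≤ ∑ i ∈ s, hgt k (f i) := by
  classical
  induction s using Finset.induction_on with
  | empty => simp [hgt_zero]
  | insert a s ha ih =>
    rw [Finset.sum_insert ha, Finset.sum_insert ha]
    exact (hgt_add _ _).trans (by linarith)

theorem hgt_prod_le' {ι : Type*} (s : Finset ι) (f : ι → K) :
    hgt k (∏ i ∈ s, f i) ≤ ∑ i ∈ s, hgt k (f i) := by
  classical
  induction s using Finset.induction_on with
  | empty => simp [hgt_one]
  | insert a s ha ih =>
    rw [Finset.prod_insert ha, Finset.sum_insert ha]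
    exact (hgt_mul' _ _).trans (by linarith)

/-- the height of a determinant -/
theorem hgt_det {n : ℕ} (A : Matrix (Fin n) (Fin n) K) (B : ℤ) (hB : ∀ i j, hgt k (A i j) ≤ B) :
    hgt k A.det ≤ n.factorial * (n * B) := by
  rw [Matrix.det_apply]
  refine (hgt_sum_le _ _).trans ?_
  refine (Finset.sum_le_card_nsmul _ _ (n * B) ?_).trans (le_of_eq ?_)
  · intro σ _
    have h1 : hgt k (Equiv.Perm.sign σ • ∏ i, A (σ i) i) = hgt k (∏ i, A (σ i) i) := by
      rcases Int.units_eq_one_or (Equiv.Perm.sign σ) with h | h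
      · rw [h, one_smul]
      · rw [h, Units.neg_smul, one_smul, hgt_neg]
    rw [h1]
    refine (hgt_prod_le' _ _).trans ?_
    refine (Finset.sum_le_card_nsmul _ _ B fun i _ => hB _ _).trans (le_of_eq ?_)
    simp
  · rw [Finset.card_univ, Fintype.card_perm, Fintype.card_fin, nsmul_eq_mul]

/-- the sum of the absolute values of the orders -/
theorem sum_abs_ord (f : K) (T : Finset (Place k K)) (hT : ∀ P, P.ord f ≠ 0 → P ∈ T) :
    ∑ P ∈ T, |P.ord f| = 2 * hgt k f := by
  have h1 : hgt k f⁻¹ = ∑ P ∈ T, max (-P.ord f⁻¹) 0 := by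
    refine hgt_finset _ T fun P hP => hT P fun h => hP ?_
    rw [P.ord_inv, h, neg_zero]
  have h2 := hgt_finset f T hT
  rw [two_mul]
  nth_rw 1 [← hgt_inv f]
  rw [h1, h2, ← Finset.sum_add_distrib]
  refine Finset.sum_congr rfl fun P _ => ?_
  rw [P.ord_inv]
  rcases le_total 0 (P.ord f) with h | h
  · rw [abs_of_nonneg h]; omega
  · rw [abs_of_nonpos h]; omega

/-- the number of places in a support -/
theorem card_supp_le (f : K) (T : Finset (Place k K)) (hT : ∀ P ∈ T, P.ord f ≠ 0) :
    (T.card : ℤ) ≤ 2 * hgt k f := by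
  classical
  obtain ⟨T', hT'⟩ := exists_supp (k := k) (Finset.univ : Finset (Fin 1)) ![f]
  have h1 : ∀ P : Place k K, P.ord f ≠ 0 → P ∈ T' := fun P => hT' 0 (Finset.mem_univ _) P
  rw [← sum_abs_ord f T' h1]
  calc (T.card : ℤ) = ∑ P ∈ T, 1 := by simp
    _ ≤ ∑ P ∈ T, |P.ord f| := Finset.sum_le_sum fun P hP => Int.one_le_abs (hT P hP)
    _ ≤ ∑ P ∈ T', |P.ord f| := Finset.sum_le_sum_of_subset_of_nonneg
        (fun P hP => h1 P (hT P hP)) fun _ _ _ => abs_nonneg _

/-- a function with a pole only at a given place -/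
theorem exists_pole (V : Place k K) : ∃ f : K, Transcendental k f ∧ ∀ P : Place k K, P ≠ V →
    0 ≤ P.ord f := by
  obtain ⟨γ, N, h1, h2⟩ := riemann k K
  set D : Place k K →₀ ℤ := Finsupp.single V (|γ| + 2) with hD
  have h3 := h1 D
  have h4 : 0 < (V.deg : ℤ) := by exact_mod_cast V.deg_pos
  have h5 : 2 ≤ ell D := by
    rw [hD, ddeg_single] at h3
    have h6 : |γ| + 2 ≤ (|γ| + 2) * V.deg := by
      have := abs_nonneg γ
      nlinarith
    have := le_abs_self γ
    rw [hD]; omega
  by_contra hcon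
  push Not at hcon
  have h6 : LL D ≤ Submodule.span k {(1 : K)} := by
    intro f hf
    rw [mem_LL] at hf
    rcases hf with rfl | hf
    · exact Submodule.zero_mem _
    have h7 : ¬ Transcendental k f := by
      intro h
      obtain ⟨P, hP, hPf⟩ := hcon f h
      have := hf P
      rw [hD, Finsupp.single_eq_of_ne hP] at this
      omega
    have h8 : IsAlgebraic k f := by
      by_contra hc; exact h7 hc
    obtain ⟨c, hc⟩ := const_of_hgt (k := k) (f := f) (hgt_algebraic h8).le
    rw [Submodule.mem_span_singleton]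
    exact ⟨c, by rw [hc, Algebra.smul_def, mul_one]⟩
  have h7 : Module.finrank k (LL D) ≤ Module.finrank k (Submodule.span k {(1 : K)}) :=
    Submodule.finrank_mono h6
  have h8 : Module.finrank k (Submodule.span k {(1 : K)}) ≤ 1 := by
    refine (finrank_span_le_card {(1 : K)}).trans ?_
    simp
  have h9 : ell D ≤ 1 := by
    unfold ell
    exact_mod_cast h7.trans h8
  omega

end one

section two

variable {k : Type u} [Field k] [IsAlgClosed k] [CharZero k]
  {F : Type v} [Field F] [Algebra k F] [IsFF k F] {L : Type w} [Field L] [Algebra k L]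
  [Algebra F L] [IsScalarTower k F L] [IsFF k L]

/-- there is a place over every place -/
theorem exists_over_place (V : Place k F) : ∃ W : Place k L, under F W = V := by
  obtain ⟨f, hf, hV⟩ := exists_pole V
  have hf' : Transcendental k (algebraMap F L f) :=
    (transcendental_algebraMap_iff (algebraMap F L).injective).2 hf
  obtain ⟨S, hS, hS2⟩ := poles (k := k) hf'
  have h2 := IsFF.finite hf'
  have h3 : 0 < Module.finrank (IntermediateField.adjoin k {algebraMap F L f}) L :=
    Module.finrank_pos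
  rw [← hS2] at h3
  obtain ⟨W, hW, -⟩ := Finset.exists_ne_zero_of_sum_ne_zero h3.ne'
  have h4 := (hS W).1 hW
  refine ⟨W, ?_⟩
  by_contra hcon
  have h5 := hV _ hcon
  rw [ord_under] at h4
  have h6 : (0 : ℤ) ≤ ram F W := by positivity
  have := mul_nonneg h6 h5
  omega

variable [FiniteDimensional F L] {M : Type w} [Field M] [Algebra k M] [Algebra F M]
  [IsScalarTower k F M] [FiniteDimensional F M] [IsFF k M]

/-- the height of a conjugate -/
theorem hgt_emb (e : L →ₐ[F] M) (y : L) :
    hgt k (e y) * Module.finrank F L = Module.finrank F M * hgt k y := by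
  letI : Algebra L M := e.toRingHom.toAlgebra
  haveI h1 : IsScalarTower F L M := IsScalarTower.of_algebraMap_eq fun x => (e.commutes x).symm
  haveI h2 : IsScalarTower k L M := by
    refine IsScalarTower.of_algebraMap_eq fun c => ?_
    rw [IsScalarTower.algebraMap_apply k F M, IsScalarTower.algebraMap_apply k F L]
    exact (e.commutes _).symm
  haveI : FiniteDimensional L M := FiniteDimensional.right F L M
  have h3 : hgt k (e y) = Module.finrank L M * hgt k y := hgt_algebraMap (F := L) (L := M) y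
  have h4 := Module.finrank_mul_finrank F L M
  rw [h3, ← h4]
  push_cast; ring

theorem hgt_emb_le (e : L →ₐ[F] M) (y : L) : hgt k (e y) ≤ Module.finrank F M * hgt k y := by
  rw [← hgt_emb e y]
  have h1 := hgt_nonneg (k := k) (e y)
  have h2 : (1 : ℤ) ≤ Module.finrank F L := by
    exact_mod_cast (Module.finrank_pos : 0 < Module.finrank F L)
  nlinarith

theorem sum_hgt_emb (hcard : Fintype.card (L →ₐ[F] M) = Module.finrank F L) (y : L) :
    ∑ e : L →ₐ[F] M, hgt k (e y) = Module.finrank F M * hgt k y := by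
  have h2 : (0 : ℤ) < Module.finrank F L := by
    exact_mod_cast (Module.finrank_pos : 0 < Module.finrank F L)
  apply mul_right_cancel₀ h2.ne'
  rw [Finset.sum_mul, Finset.sum_congr rfl fun e _ => hgt_emb e y, Finset.sum_const,
    Finset.card_univ, hcard, nsmul_eq_mul]
  ring

end two

section partner

variable {k : Type u} [Field k] [IsAlgClosed k] [CharZero k]
  {F : Type v} [Field F] [Algebra k F] [IsFF k F]

/-- the constant of the partner lemma -/
noncomputable def pc (s : ℕ) : ℤ := s * ((((s - 1) ^ 2 + 1 : ℕ) : ℤ) * tri s)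

theorem pc_nonneg (s : ℕ) : 0 ≤ pc s :=
  mul_nonneg (by positivity) (mul_nonneg (by positivity) (tri_nonneg s))

theorem pc_mono {s t : ℕ} (h : s ≤ t) : pc s ≤ pc t := by
  unfold pc
  have h1 := tri_mono h
  have h2 := tri_nonneg s
  have h3 : (s : ℤ) ≤ t := by exact_mod_cast h
  have h4 : (((s - 1) ^ 2 + 1 : ℕ) : ℤ) ≤ (((t - 1) ^ 2 + 1 : ℕ) : ℤ) := by
    have : (s - 1) ^ 2 ≤ (t - 1) ^ 2 := Nat.pow_le_pow_left (by omega) 2
    exact_mod_cast Nat.succ_le_succ this
  refine mul_le_mul h3 (mul_le_mul h4 h1 h2 (by positivity)) (mul_nonneg (by positivity) h2)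
    (by positivity)

/-- Every term of a unit equation is nearly proportional to another term. -/
theorem partner {J : Type*} [Fintype J] (S : Finset (Place k F)) (g : J → F)
    (hg0 : ∀ j, g j ≠ 0) (hrel : ∑ j, g j = 0)
    (hS : ∀ P ∉ S, ∀ i j, P.ord (g i) = P.ord (g j)) (j0 : J) :
    ∃ j, j ≠ j0 ∧ hgt k (g j0 / g j) ≤ pc (Fintype.card J) * max (canDeg k F + S.card) 0 := by
  classical
  obtain ⟨R, hR, h1, h2⟩ := blocks (k := k) S (N := (Fintype.card J - 1) ^ 2 + 1)
    (s := Fintype.card J) le_rfl (Nat.succ_pos _) (Nat.le_succ _) g hg0 hrel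
    (fun P hP i j => by rw [hS P hP i j, sub_self]; exact dvd_zero _)
  have h3 := h2 j0 (Finset.univ.filter fun j => R j0 j) (fun j => by simp)
  obtain ⟨j, hj, hj0⟩ : ∃ j ∈ Finset.univ.filter (fun j => R j0 j), j ≠ j0 := by
    by_contra hcon
    push Not at hcon
    have h4 : Finset.univ.filter (fun j => R j0 j) = {j0} := by
      ext j
      rw [Finset.mem_singleton]
      exact ⟨hcon j, fun h => by rw [h]; simp [hR.refl j0]⟩
    rw [h4, Finset.sum_singleton] at h3
    exact hg0 j0 h3
  refine ⟨j, hj0, (h1 j0 j (Finset.mem_filter.1 hj).2).trans (le_of_eq ?_)⟩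
  unfold pc
  ring

end partner

end TH951.MN
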