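import Pool.Agent.TH951.MN.Clus

/-! Existence of many points of bounded degree whose cross ratios have small height. -/

set_option autoImplicit false

open FF Pool.Agent.W603.LV Pool.Agent.W603.PV

namespace TH951.MN

universe u v w

theorem norm_div {F L : Type*} [Field F] [Field L] [Algebra F L] [FiniteDimensional F L] (a : L)
    {b : L} (hb : b ≠ 0) : Algebra.norm F (a / b) = Algebra.norm F a / Algebra.norm F b := by
  have h1 : Algebra.norm F b ≠ 0 := by
    rw [Ne, Algebra.norm_eq_zero_iff]; exact hb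
  rw [eq_div_iff h1, ← map_mul, div_mul_cancel₀ a hb]

theorem cluster (r K : ℕ) : ∃ N C : ℕ, ∀ (k : Type u) [Field k] [IsAlgClosed k] [CharZero k]
    (F : Type v) [Field F] [Algebra k F] [IsFF k F] (L : Type w) [Field L] [Algebra k L]
    [Algebra F L] [IsScalarTower k F L] [FiniteDimensional F L] [IsFF k L]
    (_ : Module.finrank F L ≤ r)
    (S : Finset (Place k F)) (x : ℕ → L) (_ : ∀ i j, i < N → j < N → i ≠ j → x i ≠ x j)
    (_ : ∀ P : Place k L, under F P ∉ S → ∀ i j, i < N → j < N → i ≠ j → P.ord (x i - x j) = 0),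
    ∃ e : ℕ → ℕ, (∀ i j, i < j → j ≤ K → e i < e j) ∧ (∀ i, i ≤ K → e i < N) ∧
      ∀ i j a b, i < K → j < K → a < K → b < K → i ≠ j → a ≠ b →
        hgt k (((x (e (i + 1)) - x (e 0))⁻¹ - (x (e (j + 1)) - x (e 0))⁻¹) /
          ((x (e (a + 1)) - x (e 0))⁻¹ - (x (e (b + 1)) - x (e 0))⁻¹)) ≤
        C * max (canDeg k F + S.card) 0 := by
  classical
  obtain ⟨N0, C0, hloc⟩ := local_lemma.{w} r
  set K' := max K (max N0 3) with hK'
  set m := 2 ^ r + 1 with hm
  obtain ⟨N, hN⟩ := comb.{v} m (K' + 1)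
  refine ⟨N, (4 * C0 * r * K' ^ 2 * (4 * pc m.factorial)).toNat, ?_⟩
  intro k _ _ _ F _ _ _ L _ _ _ _ _ _ hr S x hx hS
  have hF : CharZero F := charZero_of_injective_algebraMap (algebraMap k F).injective
  obtain ⟨M, _, _, hMfin, -, hnorm, hcard⟩ := exists_gal F L
  letI : Algebra k M := ((algebraMap F M).comp (algebraMap k F)).toAlgebra
  have hkM : IsScalarTower k F M := IsScalarTower.of_algebraMap_eq fun _ => rfl
  have hFFM : IsFF k M := isFF_of_finite (F := F)
  set X : ℤ := max (canDeg k F + S.card) 0 with hX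
  have hX0 : 0 ≤ X := le_max_right _ _
  set B : ℤ := 2 * (pc m.factorial * X) with hB
  have hB0 : 0 ≤ B := mul_nonneg (by norm_num) (mul_nonneg (pc_nonneg _) hX0)
  -- the set of places
  obtain ⟨T, hT⟩ := exists_supp (k := k) (Finset.univ : Finset (Fin N × Fin N))
    (fun p => Algebra.norm F (x p.1 - x p.2))
  have hT' : ∀ i j, i < N → j < N → ∀ P : Place k F,
      P.ord (Algebra.norm F (x i - x j)) ≠ 0 → P ∈ T := fun i j hi hj P hP =>
    hT (⟨i, hi⟩, ⟨j, hj⟩) (Finset.mem_univ _) P hP
  set U : Place k F → ℕ → ℕ → ℤ := fun P i j => P.ord (Algebra.norm F (x i - x j)) with hU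
  have hUsym : ∀ P i j, U P i j = U P j i := by
    intro P i j
    simp only [hU]
    rw [← neg_sub, ← neg_one_mul, map_mul]
    by_cases hij : x j - x i = 0
    · rw [hij, Algebra.norm_zero, mul_zero]
    · have h1 : Algebra.norm F (x j - x i) ≠ 0 := by
        rw [Ne, Algebra.norm_eq_zero_iff]; exact hij
      have h2 : Algebra.norm F (-1 : L) ≠ 0 := by
        rw [Ne, Algebra.norm_eq_zero_iff]; simp
      rw [P.ord_mul h2 h1]
      have h3 : P.ord (Algebra.norm F (-1 : L)) = 0 := by
        have h4 : (Algebra.norm F (-1 : L)) * (Algebra.norm F (-1 : L)) = 1 := by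
          rw [← map_mul]; simp
        have h5 := P.ord_mul h2 h2
        rw [h4, P.ord_one] at h5
        omega
      rw [h3, zero_add]
  obtain ⟨e, he, heN, hcr⟩ := hN T U hUsym B (fun z hz hzN => by
    refine tuple_partner (M := M) hnorm ?_ x hx S hS T hT' z hz hzN
    rw [hcard, hm]
    exact Nat.lt_succ_of_le (Nat.pow_le_pow_right (by norm_num) hr))
  have hKK : K ≤ K' := le_max_left _ _
  have h3K : 3 ≤ K' := (le_max_right _ _).trans (le_max_right _ _)
  have hNK : N0 ≤ K' := (le_max_left _ _).trans (le_max_right _ _)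
  refine ⟨e, fun i j hij hj => he i j hij (by omega), fun i hi => heN i (by omega), ?_⟩
  -- the inverse differences
  set z : ℕ → L := fun i => (x (e (i + 1)) - x (e 0))⁻¹ with hz
  have hne : ∀ i j, i < j → j < K' + 1 → x (e i) ≠ x (e j) := fun i j hij hj =>
    hx _ _ (heN _ (by omega)) (heN _ hj) (he i j hij hj).ne
  have hne' : ∀ i j, i < K' + 1 → j < K' + 1 → i ≠ j → x (e i) - x (e j) ≠ 0 := by
    intro i j hi hj hij
    rw [sub_ne_zero]
    rcases Nat.lt_or_gt_of_ne hij with h | h
    · exact hne i j h hj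
    · exact (hne j i h hi).symm
  have hzd : ∀ i j, i < K' → j < K' → z i - z j = (x (e (j + 1)) - x (e (i + 1))) /
      ((x (e (i + 1)) - x (e 0)) * (x (e (j + 1)) - x (e 0))) := by
    intro i j hi hj
    have h1 := hne' (i + 1) 0 (by omega) (by omega) (by omega)
    have h2 := hne' (j + 1) 0 (by omega) (by omega) (by omega)
    simp only [hz]
    field_simp
    ring
  have hz0 : ∀ i j, i < K' → j < K' → i ≠ j → z i ≠ z j := by
    intro i j hi hj hij h
    have h1 := hne' (i + 1) 0 (by omega) (by omega) (by omega)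
    have h2 := hne' (j + 1) 0 (by omega) (by omega) (by omega)
    have h3 := hne' (j + 1) (i + 1) (by omega) (by omega) (by omega)
    have h4 := hzd i j hi hj
    rw [h, sub_self] at h4
    exact div_ne_zero h3 (mul_ne_zero h1 h2) h4.symm
  set v : ℕ → ℕ → F := fun i j => Algebra.norm F (z i - z j) with hv
  have hnz : ∀ {y : L}, y ≠ 0 → Algebra.norm F y ≠ 0 := fun hy => by
    rw [Ne, Algebra.norm_eq_zero_iff]; exact hy
  have hv0 : ∀ i j, i < K' → j < K' → i ≠ j → v i j ≠ 0 := fun i j hi hj hij =>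
    hnz (sub_ne_zero.2 (hz0 i j hi hj hij))
  have hvo : ∀ (P : Place k F) i j, i < K' → j < K' → i ≠ j → P.ord (v i j) =
      U P (e (i + 1)) (e (j + 1)) - U P (e 0) (e (i + 1)) - U P (e 0) (e (j + 1)) := by
    intro P i j hi hj hij
    have h1 := hne' (i + 1) 0 (by omega) (by omega) (by omega)
    have h2 := hne' (j + 1) 0 (by omega) (by omega) (by omega)
    have h3 := hne' (j + 1) (i + 1) (by omega) (by omega) (by omega)
    rw [hUsym P (e (i + 1)) (e (j + 1)), hUsym P (e 0) (e (i + 1)), hUsym P (e 0) (e (j + 1))]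
    simp only [hv, hU]
    rw [hzd i j hi hj, norm_div _ (mul_ne_zero h1 h2), map_mul, P.ord_div (hnz h3) (mul_ne_zero (hnz h1) (hnz h2)),
      P.ord_mul (hnz h1) (hnz h2)]
    ring
  have hvsym : ∀ (P : Place k F) i j, i < K' → j < K' → i ≠ j → P.ord (v i j) = P.ord (v j i) := by
    intro P i j hi hj hij
    rw [hvo P i j hi hj hij, hvo P j i hj hi hij.symm, hUsym P (e (i + 1)) (e (j + 1))]
    ring
  -- comparison of the norms
  have hc1 : ∀ b c d, b < c → c < d → d < K' →
      ∑ P ∈ T, |P.ord (v c d) - P.ord (v b d)| ≤ 2 * B := by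
    intro b c d hbc hcd hd
    refine le_trans (le_of_eq (Finset.sum_congr rfl fun P _ => ?_))
      (hcr 0 (b + 1) (c + 1) (d + 1) (by omega) (by omega) (by omega) (by omega)).1
    rw [hvo P c d (by omega) hd (by omega), hvo P b d (by omega) hd (by omega)]
    congr 1
    ring
  have hc2 : ∀ b c d, b < c → c < d → d < K' →
      ∑ P ∈ T, |P.ord (v b d) - P.ord (v b c)| ≤ 2 * B := by
    intro b c d hbc hcd hd
    refine le_trans (le_of_eq (Finset.sum_congr rfl fun P _ => ?_))
      (hcr 0 (b + 1) (c + 1) (d + 1) (by omega) (by omega) (by omega) (by omega)).2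
    rw [hvo P b d (by omega) hd (by omega), hvo P b c (by omega) (by omega) (by omega)]
    congr 1
    ring
  have hc3 : ∀ i j, i < j → j < K' → ∑ P ∈ T, |P.ord (v i j) - P.ord (v 0 1)| ≤ 4 * B := by
    intro i j hij hj
    have htri : ∀ (a b c : Place k F → ℤ) (A A' : ℤ), ∑ P ∈ T, |a P - b P| ≤ A →
        ∑ P ∈ T, |b P - c P| ≤ A' → ∑ P ∈ T, |a P - c P| ≤ A + A' := by
      intro a b c A A' h1 h2
      refine le_trans ?_ (add_le_add h1 h2)
      rw [← Finset.sum_add_distrib]
      exact Finset.sum_le_sum fun P _ => abs_sub_le _ _ _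
    have h1 : ∑ P ∈ T, |P.ord (v i j) - P.ord (v 0 j)| ≤ 2 * B := by
      by_cases hi : i = 0
      · subst hi
        simp only [sub_self, abs_zero, Finset.sum_const_zero]
        omega
      · exact hc1 0 i j (by omega) hij hj
    have h2 : ∑ P ∈ T, |P.ord (v 0 j) - P.ord (v 0 1)| ≤ 2 * B := by
      by_cases hj1 : j = 1
      · subst hj1
        simp only [sub_self, abs_zero, Finset.sum_const_zero]
        omega
      · exact hc2 0 1 j (by omega) (by omega) hj
    have h3 := htri _ _ _ _ _ h1 h2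
    linarith
  have hc4 : ∀ i j, i < K' → j < K' → i ≠ j →
      ∑ P ∈ T, |P.ord (v i j) - P.ord (v 0 1)| ≤ 4 * B := by
    intro i j hi hj hij
    rcases Nat.lt_or_gt_of_ne hij with h | h
    · exact hc3 i j h hj
    · refine le_trans (le_of_eq (Finset.sum_congr rfl fun P _ => ?_)) (hc3 j i h hi)
      rw [hvsym P i j hi hj hij]
  have hvT : ∀ i j, i < K' → j < K' → i ≠ j → ∀ P : Place k F, P.ord (v i j) ≠ 0 → P ∈ T := by
    intro i j hi hj hij P hP
    by_contra hcon
    apply hP
    rw [hvo P i j hi hj hij]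
    have h1 : ∀ a b, a < K' + 1 → b < K' + 1 → U P (e a) (e b) = 0 := by
      intro a b ha hb
      by_contra h
      exact hcon (hT' _ _ (heN a ha) (heN b hb) P h)
    rw [h1 _ _ (by omega) (by omega), h1 _ _ (by omega) (by omega), h1 _ _ (by omega) (by omega)]
    rfl
  have hBv : ∀ i j, i < K' → j < K' → i ≠ j →
      hgt k (Algebra.norm F (z i - z j) / Algebra.norm F (z 0 - z 1)) ≤ 2 * B := by
    intro i j hi hj hij
    have h0 := hv0 i j hi hj hij
    have h1 := hv0 0 1 (by omega) (by omega) (by omega)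
    have h2 := sum_abs_ord (k := k) (v i j / v 0 1) T (by
      intro P hP
      by_contra hcon
      apply hP
      rw [P.ord_div h0 h1]
      have h3 : P.ord (v i j) = 0 := by
        by_contra h; exact hcon (hvT _ _ hi hj hij P h)
      have h4 : P.ord (v 0 1) = 0 := by
        by_contra h; exact hcon (hvT 0 1 (by omega) (by omega) (by omega) P h)
      rw [h3, h4]; rfl)
    have h3 : ∑ P ∈ T, |P.ord (v i j / v 0 1)| = ∑ P ∈ T, |P.ord (v i j) - P.ord (v 0 1)| :=
      Finset.sum_congr rfl fun P _ => by rw [P.ord_div h0 h1]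
    have h4 := hc4 i j hi hj hij
    rw [← h3, h2] at h4
    change hgt k (v i j / v 0 1) ≤ 2 * B
    linarith
  intro i j a b hi hj ha hb hij hab
  have hfin := spread (M := M) hnorm hcard hr (by omega : 2 ≤ K')
    (fun ω h1 h2 c η h3 => hloc K' hNK _ (by rw [hcard]; exact hr) ω h1 h2 c η h3) z hz0 (2 * B) hBv
    i j a b (by omega) (by omega) (by omega) (by omega) hij hab
  refine hfin.trans (le_of_eq ?_)
  rw [Int.toNat_of_nonneg, hB]
  · ring
  · have := pc_nonneg m.factorial
    positivity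

end TH951.MN
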