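import Pool.Agent.Helper850.RC.P_ramsey

/-! Ramsey's theorem for tuples, in a convenient form, and its consequence for systems of
determinant relations. -/

set_option autoImplicit false

namespace TH951.MN

universe u

theorem tow_le_self (C : ℕ) (x : ℕ) : ∃ N, RC.tow C x ≤ N := ⟨_, le_rfl⟩

/-- Ramsey's theorem. -/
theorem ramsey' (t q n : ℕ) : ∃ N : ℕ, ∀ (κ : Type u) [Fintype κ], Fintype.card κ ≤ q →
    ∀ χ : (Fin t → ℕ) → κ, ∃ e : ℕ → ℕ, (∀ i j, i < j → j < n → e i < e j) ∧
      (∀ i, i < n → e i < N) ∧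
      ∀ x y : Fin t → ℕ, StrictMono x → StrictMono y → (∀ l, x l < n) → (∀ l, y l < n) →
        χ (fun l => e (x l)) = χ (fun l => e (y l)) := by
  classical
  obtain ⟨C, hC⟩ := RC.ramsey t
  obtain ⟨a, ha⟩ := hC q
  refine ⟨RC.tow C (a * (n + 1)), ?_⟩
  intro κ _ hκ χ
  obtain ⟨T, hTS, hTc, hT⟩ := ha n (Finset.range (RC.tow C (a * (n + 1)))) (by simp)
    (fun z => Fin.castLE hκ (Fintype.equivFin κ (χ z)))
  have hT' : ∀ x y : Fin t → ℕ, StrictMono x → StrictMono y → (∀ l, x l ∈ T) → (∀ l, y l ∈ T) →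
      χ x = χ y := by
    intro x y hx hy hxT hyT
    have := hT x y hx hy hxT hyT
    exact (Fintype.equivFin κ).injective ((Fin.castLE_injective hκ) this)
  let f := T.orderEmbOfFin hTc
  refine ⟨fun i => if h : i < n then f ⟨i, h⟩ else 0, ?_, ?_, ?_⟩
  · intro i j hij hj
    have hi : i < n := hij.trans hj
    simp only [hi, hj, dif_pos]
    exact f.strictMono hij
  · intro i hi
    simp only [hi, dif_pos]
    exact Finset.mem_range.1 (hTS (Finset.orderEmbOfFin_mem T hTc _))
  · intro x y hx hy hxn hyn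
    apply hT'
    · intro i j hij
      simp only [hxn i, hxn j, dif_pos]
      exact f.strictMono (hx hij)
    · intro i j hij
      simp only [hyn i, hyn j, dif_pos]
      exact f.strictMono (hy hij)
    · intro l
      simp only [hxn l, dif_pos]
      exact Finset.orderEmbOfFin_mem T hTc _
    · intro l
      simp only [hyn l, dif_pos]
      exact Finset.orderEmbOfFin_mem T hTc _

theorem perm_lt {m : ℕ} {σ : Equiv.Perm (Fin m)} (h : σ ≠ 1) : ∃ a, a < σ a := by
  by_contra hcon
  push Not at hcon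
  apply h
  have h1 : ∑ a, ((σ a : Fin m) : ℕ) = ∑ a : Fin m, (a : ℕ) := Equiv.sum_comp σ (fun a => (a : ℕ))
  have h2 := (Finset.sum_eq_sum_iff_of_le (s := Finset.univ) (f := fun a => ((σ a : Fin m) : ℕ))
    (g := fun a : Fin m => (a : ℕ)) (fun a _ => hcon a)).1 h1
  ext a
  exact h2 a (Finset.mem_univ a)

theorem perm_gt {m : ℕ} {σ : Equiv.Perm (Fin m)} (h : σ ≠ 1) : ∃ a, σ a < a := by
  by_contra hcon
  push Not at hcon
  apply h
  have h1 : ∑ a, ((σ a : Fin m) : ℕ) = ∑ a : Fin m, (a : ℕ) := Equiv.sum_comp σ (fun a => (a : ℕ))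
  have h2 := (Finset.sum_eq_sum_iff_of_le (s := Finset.univ) (f := fun a : Fin m => (a : ℕ))
    (g := fun a : Fin m => ((σ a : Fin m) : ℕ)) (fun a _ => hcon a)).1 h1.symm
  ext a
  exact (h2 a (Finset.mem_univ a)).symm

/-- the relation of a tuple -/
def rel {ι : Type u} {m : ℕ} (U : ι → ℕ → ℕ → ℤ) (σ : Equiv.Perm (Fin m)) (z : Fin (2 * m) → ℕ)
    (P : ι) : ℤ :=
  ∑ b : Fin m, (U P (z ⟨2 * b + 1, by omega⟩) (z ⟨2 * (σ b : ℕ), by omega⟩) -
          U P (z ⟨2 * b + 1, by omega⟩) (z ⟨2 * b, by omega⟩))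

theorem vary {ι : Type u} {m : ℕ} (T : Finset ι) (U : ι → ℕ → ℕ → ℤ) (B : ℤ)
    (σ : Equiv.Perm (Fin m)) (z z' : Fin (2 * m) → ℕ) (a : Fin m)
    (hzz : ∀ l : Fin (2 * m), (l : ℕ) ≠ 2 * a + 1 → z l = z' l)
    (hz : ∑ P ∈ T, |rel U σ z P| ≤ B) (hz' : ∑ P ∈ T, |rel U σ z' P| ≤ B)
    {x x' y w : ℕ} (hx : z ⟨2 * a + 1, by omega⟩ = x) (hx' : z' ⟨2 * a + 1, by omega⟩ = x')
    (hy : z ⟨2 * (σ a : ℕ), by omega⟩ = y) (hw : z ⟨2 * a, by omega⟩ = w) :
    ∑ P ∈ T, |U P x y + U P x' w - U P x w - U P x' y| ≤ 2 * B := by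
  classical
  have key : ∀ P, U P x y + U P x' w - U P x w - U P x' y = rel U σ z P - rel U σ z' P := by
    intro P
    unfold rel
    rw [← Finset.sum_sub_distrib, Finset.sum_eq_single a]
    · rw [hx, hx', hy, hw]
      have h1 : z' ⟨2 * (σ a : ℕ), by omega⟩ = y := by
        rw [← hy]; exact (hzz _ (by simp only; omega)).symm
      have h2 : z' ⟨2 * (a : ℕ), by omega⟩ = w := by
        rw [← hw]; exact (hzz _ (by simp only; omega)).symm
      rw [h1, h2]; ring
    · intro b _ hb
      have hb' : (b : ℕ) ≠ a := fun h => hb (Fin.ext h)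
      rw [hzz ⟨2 * b + 1, by omega⟩ (by simp only; omega),
        hzz ⟨2 * (σ b : ℕ), by omega⟩ (by simp only; omega),
        hzz ⟨2 * (b : ℕ), by omega⟩ (by simp only; omega)]
      ring
    · intro h; exact absurd (Finset.mem_univ a) h
  calc ∑ P ∈ T, |U P x y + U P x' w - U P x w - U P x' y|
      = ∑ P ∈ T, |rel U σ z P - rel U σ z' P| := Finset.sum_congr rfl fun P _ => by rw [key]
    _ ≤ ∑ P ∈ T, (|rel U σ z P| + |rel U σ z' P|) := Finset.sum_le_sum fun P _ => abs_sub _ _
    _ ≤ 2 * B := by rw [Finset.sum_add_distrib]; linarith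

/-- If every interlaced tuple has a partner permutation then there are many indices such that all
the cross ratios of the indices are comparable. -/
theorem comb (m K : ℕ) : ∃ N : ℕ, ∀ {ι : Type u} (T : Finset ι) (U : ι → ℕ → ℕ → ℤ)
    (_ : ∀ P i j, U P i j = U P j i) (B : ℤ) (_ : ∀ z : Fin (2 * m) → ℕ, StrictMono z →
      (∀ l, z l < N) → ∃ σ : Equiv.Perm (Fin m), σ ≠ 1 ∧ ∑ P ∈ T, |rel U σ z P| ≤ B),
    ∃ e : ℕ → ℕ, (∀ i j, i < j → j < K → e i < e j) ∧ (∀ i, i < K → e i < N) ∧
      ∀ a b c d, a < b → b < c → c < d → d < K →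
        (∑ P ∈ T, |U P (e a) (e b) + U P (e c) (e d) - U P (e a) (e c) - U P (e b) (e d)| ≤ 2 * B) ∧
        (∑ P ∈ T, |U P (e a) (e c) + U P (e b) (e d) - U P (e a) (e d) - U P (e b) (e c)| ≤
          2 * B) := by
  classical
  obtain ⟨N, hN⟩ := ramsey'.{0} (2 * m) (Fintype.card (Equiv.Perm (Fin m))) (2 * m * (K + 2))
  refine ⟨N, ?_⟩
  intro ι T U hU B H
  have H' : ∀ z : Fin (2 * m) → ℕ, ∃ σ : Equiv.Perm (Fin m), StrictMono z → (∀ l, z l < N) →
      σ ≠ 1 ∧ ∑ P ∈ T, |rel U σ z P| ≤ B := by
    intro z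
    by_cases h : StrictMono z ∧ ∀ l, z l < N
    · obtain ⟨σ, h1, h2⟩ := H z h.1 h.2
      exact ⟨σ, fun _ _ => ⟨h1, h2⟩⟩
    · exact ⟨1, fun h1 h2 => absurd ⟨h1, h2⟩ h⟩
  choose χ hχ using H'
  obtain ⟨e, he, heN, hhom⟩ := hN (Equiv.Perm (Fin m)) le_rfl χ
  set n := 2 * m * (K + 2) with hn
  -- the common colour
  set σ := χ (fun l : Fin (2 * m) => e (l : ℕ)) with hσ
  have hval : ∀ q : Fin (2 * m) → ℕ, StrictMono q → (∀ l, q l < n) →
      σ ≠ 1 ∧ ∑ P ∈ T, |rel U σ (fun l => e (q l)) P| ≤ B := by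
    intro q hq hqn
    have h1 : χ (fun l => e (q l)) = σ := by
      refine hhom q (fun l => (l : ℕ)) hq (fun i j h => h) hqn (fun l => ?_)
      have := l.2
      rw [hn]; nlinarith
    have h2 := hχ (fun l => e (q l)) (fun i j hij => he _ _ (hq hij) (hqn j))
      (fun l => heN _ (hqn l))
    rwa [h1] at h2
  rcases Nat.eq_zero_or_pos m with hm | hm
  · exfalso
    subst hm
    have h1 := (hval (fun l => absurd l.2 (by omega)) (fun i => absurd i.2 (by omega))
      (fun l => absurd l.2 (by omega))).1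
    exact h1 (Subsingleton.elim _ _)
  have hσ1 : σ ≠ 1 := by
    refine (hval (fun l => (l : ℕ)) (fun i j h => h) (fun l => ?_)).1
    have := l.2
    rw [hn]; nlinarith
  -- the sparse subset
  have hpos : ∀ k, k < K → 2 * m * (k + 1) + 2 * m ≤ n := by
    intro k hk
    have h1 : k + 2 ≤ K + 2 := by omega
    calc 2 * m * (k + 1) + 2 * m = 2 * m * (k + 2) := by ring
      _ ≤ 2 * m * (K + 2) := Nat.mul_le_mul_left _ h1
  have hgap : ∀ k l, k < l → 2 * m * (k + 1) + 2 * m ≤ 2 * m * (l + 1) := by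
    intro k l hkl
    have h1 : k + 2 ≤ l + 1 := by omega
    calc 2 * m * (k + 1) + 2 * m = 2 * m * (k + 2) := by ring
      _ ≤ 2 * m * (l + 1) := Nat.mul_le_mul_left _ h1
  have hlow : ∀ k, 2 * m ≤ 2 * m * (k + 1) := by
    intro k
    calc 2 * m = 2 * m * 1 := by ring
      _ ≤ 2 * m * (k + 1) := Nat.mul_le_mul_left _ (by omega)
  refine ⟨fun k => e (2 * m * (k + 1)), ?_, ?_, ?_⟩
  · intro i j hij hj
    refine he _ _ ?_ ?_
    · have := hgap i j hij; omega
    · have := hpos j hj; omega
  · intro i hi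
    apply heN
    have := hpos i hi; omega
  · intro a b c d hab hbc hcd hd
    have ga := hlow a
    have gab := hgap a b hab
    have gbc := hgap b c hbc
    have gcd := hgap c d hcd
    have gd := hpos d hd
    beta_reduce
    generalize 2 * m * (a + 1) = A at *
    generalize 2 * m * (b + 1) = B' at *
    generalize 2 * m * (c + 1) = C at *
    generalize 2 * m * (d + 1) = D at *
    constructor
    · obtain ⟨s, hs⟩ := perm_lt hσ1
      have hs' : (s : ℕ) < (σ s : ℕ) := hs
      have hs2 := (σ s).2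
      -- positions
      let q : ℕ → Fin (2 * m) → ℕ := fun x l => if (l : ℕ) ≤ 2 * s then A + l - 2 * s else
        if (l : ℕ) = 2 * s + 1 then x else D + l - 2 * (σ s : ℕ)
      have hq : ∀ x, A < x → x < C + 1 → StrictMono (q x) ∧ ∀ l, q x l < n := by
        intro x hx1 hx2
        constructor
        · intro i j hij
          have hij' : (i : ℕ) < j := hij
          have := j.2
          simp only [q]
          split_ifs <;> omega
        · intro l
          have := l.2
          simp only [q]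
          split_ifs <;> omega
      have h1 := (hval _ (hq B' (by omega) (by omega)).1 (hq B' (by omega) (by omega)).2).2
      have h2 := (hval _ (hq C (by omega) (by omega)).1 (hq C (by omega) (by omega)).2).2
      have h3 := vary T U B σ _ _ s (fun l hl => by
          simp only [q]
          split_ifs <;> rfl) h1 h2
        (x := e B') (x' := e C) (y := e D) (w := e A) (by
          simp only [q]
          rw [if_neg (by omega), if_pos trivial]) (by
          simp only [q]
          rw [if_neg (by omega), if_pos trivial]) (by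
          simp only [q]
          rw [if_neg (by omega), if_neg (by omega)]
          congr 1; omega) (by
          simp only [q]
          rw [if_pos le_rfl]
          congr 1; omega)
      refine le_trans (le_of_eq ?_) h3
      refine Finset.sum_congr rfl fun P _ => ?_
      rw [← abs_neg, hU P (e B') (e A), hU P (e C) (e A)]
      congr 1
      ring
    · obtain ⟨s, hs⟩ := perm_gt hσ1
      have hs' : (σ s : ℕ) < (s : ℕ) := hs
      have hs2 := s.2
      let q : ℕ → Fin (2 * m) → ℕ := fun x l => if (l : ℕ) ≤ 2 * (σ s : ℕ) then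
        A + l - 2 * (σ s : ℕ) else if (l : ℕ) ≤ 2 * s then B' + l - 2 * s else
        if (l : ℕ) = 2 * s + 1 then x else D + l - 2 * s
      have hq : ∀ x, B' < x → x < D + 1 → StrictMono (q x) ∧ ∀ l, q x l < n := by
        intro x hx1 hx2
        constructor
        · intro i j hij
          have hij' : (i : ℕ) < j := hij
          have := j.2
          simp only [q]
          split_ifs <;> omega
        · intro l
          have := l.2
          simp only [q]
          split_ifs <;> omega
      have h1 := (hval _ (hq C (by omega) (by omega)).1 (hq C (by omega) (by omega)).2).2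
      have h2 := (hval _ (hq D (by omega) (by omega)).1 (hq D (by omega) (by omega)).2).2
      have h3 := vary T U B σ _ _ s (fun l hl => by
          simp only [q]
          split_ifs <;> rfl) h1 h2
        (x := e C) (x' := e D) (y := e A) (w := e B') (by
          simp only [q]
          rw [if_neg (by omega), if_neg (by omega), if_pos trivial]) (by
          simp only [q]
          rw [if_neg (by omega), if_neg (by omega), if_pos trivial]) (by
          simp only [q]
          rw [if_pos le_rfl]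
          congr 1; omega) (by
          simp only [q]
          rw [if_neg (by omega), if_pos le_rfl]
          congr 1; omega)
      refine le_trans (le_of_eq ?_) h3
      refine Finset.sum_congr rfl fun P _ => ?_
      rw [hU P (e C) (e A), hU P (e D) (e B'), hU P (e C) (e B'), hU P (e D) (e A)]
      congr 1
      ring

end TH951.MN
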